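import Pool.Agent.Lib.MP_72e2e6_nt.P4.F.Spec

/-!
# MP_72e2e6_nt, theorem T4, part F: module FinM
-/

namespace Pool.Agent.MP72G

open Finset Pool.Agent.MP72P IntermediateField
open WeierstrassCurve
open Pool.Agent.MP72W (pmap)
open Pool.Agent.MP72V

open scoped Classical

private theorem finMexp {n : ℕ} (B : Fin n → ℝ) : ∃ e : ℕ, ∀ j, B j ≤ 2 ^ e := by
  choose N hN using fun j => pow_unbounded_of_one_lt (B j) (one_lt_two (α := ℝ))
  exact ⟨Finset.univ.sup N, fun j => (hN j).le.trans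
    (pow_le_pow_right₀ one_le_two (Finset.le_sup (Finset.mem_univ j)))⟩

theorem tFinM (h1 : S_Na) (h2 : S_GcM) (h3 : S_ThmM) (h4 : S_GdZ) : S_FinM := by
  intro p _ K M _ _ _ _ _ _ hG r hr W hGc D₀
  have hchM : CharP M p := charP_of_injective_algebraMap (algebraMap K M).injective p
  have hGcM : Gc p (W.map (algebraMap K M)) := (h2 p K M W).2.1 hGc
  obtain ⟨m, av₀, hnt, H⟩ := h3 p K M hG r hr W hGc D₀
  refine ⟨m, av₀, hnt, fun n av hPl hc ε hε => ?_⟩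
  obtain ⟨hfin, H2⟩ := H n av ⟨hPl.ntr, hPl.inq⟩ hc
  obtain ⟨e₀, he₀⟩ := H2 ε hε
  refine ⟨2 ^ e₀, fun B hB => ?_⟩
  have hna : ∀ v : AbsoluteValue K ℝ, IsNonarchimedean v := h1 p K
  have hB0 : ∀ j, 0 ≤ B j := fun j => (pow_pos two_pos e₀).le.trans (hB j)
  let 𝒟 : AddSubgroup (OS av) :=
    { carrier := {D | ∀ j, av j (D : K) ≤ B j}
      add_mem' := fun {a b} ha hb j =>
        (hna (av j) (a : K) (b : K)).trans (max_le (ha j) (hb j))
      zero_mem' := fun j => by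
        have h : ((0 : OS av) : K) = 0 := rfl
        rw [h, map_zero]
        exact hB0 j
      neg_mem' := fun {a} ha j => by
        have h : ((-a : OS av) : K) = -(a : K) := rfl
        rw [h, AbsoluteValue.map_neg]
        exact ha j }
  have h𝒟 : ∀ D : OS av, D ∈ 𝒟 ↔ ∀ j, av j (D : K) ≤ B j := fun D => Iff.rfl
  obtain ⟨e, he⟩ := finMexp B
  have h𝒟fin : (𝒟 : Set (OS av)).Finite :=
    (hfin e).subset fun D hD j _ => ((h𝒟 D).1 hD j).trans (he j)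
  have hle : FS av e₀ ≤ 𝒟 := fun D hD j => (hD j (hna (av j))).trans (hB j)
  have hbad := he₀ 𝒟 h𝒟fin hle
  have hinj : Function.Injective fun D : OS av => (D : K) := Subtype.val_injective
  have hTw : MP72Z.Tw av B = (fun D : OS av => (D : K)) '' (𝒟 : Set (OS av)) := by
    ext x
    constructor
    · rintro ⟨hx1, hx2⟩
      exact ⟨⟨x, fun v hv _ hne => hx1 v hv hne⟩, hx2, rfl⟩
    · rintro ⟨D, hD, rfl⟩
      exact ⟨fun v hv hne => D.2 v hv (hna v) hne, hD⟩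
  have hTwfin : (MP72Z.Tw av B).Finite := by
    rw [hTw]
    exact h𝒟fin.image _
  refine ⟨hTwfin, ?_⟩
  have hcard : (MP72Z.Tw av B).ncard = (𝒟 : Set (OS av)).ncard := by
    rw [hTw, Set.ncard_image_of_injective _ hinj]
  have hNc : (Nat.card 𝒟 : ℝ) = ((𝒟 : Set (OS av)).ncard : ℝ) := by
    rw [← Nat.card_coe_set_eq]
    rfl
  rw [hNc] at hbad
  -- the good elements
  have hsplit : {D : OS av | D ∈ 𝒟 ∧ ((¬ ∃ x : M, x ^ p - x = D₀ + algebraMap K M (D : K)) ∧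
      GdV (W.map (algebraMap K M)) (hD p (D₀ + algebraMap K M (D : K))))}.ncard +
      {D : OS av | D ∈ 𝒟 ∧ ¬ ((¬ ∃ x : M, x ^ p - x = D₀ + algebraMap K M (D : K)) ∧
      GdV (W.map (algebraMap K M)) (hD p (D₀ + algebraMap K M (D : K))))}.ncard =
      (𝒟 : Set (OS av)).ncard := by
    rw [← Set.ncard_union_eq (by
      rw [Set.disjoint_left]
      rintro D ⟨-, h1⟩ ⟨-, h2⟩
      exact h2 h1) (h𝒟fin.subset fun D hD => hD.1) (h𝒟fin.subset fun D hD => hD.1)]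
    congr 1
    ext D
    simp only [Set.mem_union, Set.mem_ofPred_eq, SetLike.mem_coe]
    tauto
  have hgood : {D : OS av | D ∈ 𝒟 ∧ ((¬ ∃ x : M, x ^ p - x = D₀ + algebraMap K M (D : K)) ∧
      GdV (W.map (algebraMap K M)) (hD p (D₀ + algebraMap K M (D : K))))}.ncard ≤
      {D ∈ MP72Z.Tw av B |
        MP72Z.Good (W.map (algebraMap K M)) p (D₀ + algebraMap K M D)}.ncard := by
    rw [← Set.ncard_image_of_injective _ hinj]
    refine Set.ncard_le_ncard ?_ (hTwfin.subset fun D hD => hD.1)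
    rintro x ⟨D, ⟨hD1, hD2, hD3⟩, rfl⟩
    refine ⟨?_, h4 p M (W.map (algebraMap K M)) hGcM _ hD2 hD3⟩
    rw [hTw]
    exact ⟨D, hD1, rfl⟩
  rw [hcard]
  have k1 : (({D : OS av | D ∈ 𝒟 ∧ ((¬ ∃ x : M, x ^ p - x = D₀ + algebraMap K M (D : K)) ∧
      GdV (W.map (algebraMap K M)) (hD p (D₀ + algebraMap K M (D : K))))}.ncard : ℕ) : ℝ) +
      (({D : OS av | D ∈ 𝒟 ∧ ¬ ((¬ ∃ x : M, x ^ p - x = D₀ + algebraMap K M (D : K)) ∧
      GdV (W.map (algebraMap K M)) (hD p (D₀ + algebraMap K M (D : K))))}.ncard : ℕ) : ℝ) =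
      (((𝒟 : Set (OS av)).ncard : ℕ) : ℝ) := by
    exact_mod_cast hsplit
  have k2 : (({D : OS av | D ∈ 𝒟 ∧ ((¬ ∃ x : M, x ^ p - x = D₀ + algebraMap K M (D : K)) ∧
      GdV (W.map (algebraMap K M)) (hD p (D₀ + algebraMap K M (D : K))))}.ncard : ℕ) : ℝ) ≤
      (({D ∈ MP72Z.Tw av B |
        MP72Z.Good (W.map (algebraMap K M)) p (D₀ + algebraMap K M D)}.ncard : ℕ) : ℝ) := by
    exact_mod_cast hgood
  linarith

end Pool.Agent.MP72G
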