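import Pool.Agent.Lib.MP_72e2e6_nt.P4.F.Spec
import Pool.Agent.Lib.MP_72e2e6_nt.P3.U.Qu

/-!
# MP_72e2e6_nt, theorem T4, part F: the literal form of the properties
-/

set_option autoImplicit false

namespace Pool.Agent.MP72G

open Finset Pool.Agent.MP72P IntermediateField
open WeierstrassCurve
open Pool.Agent.MP72W (pmap)
open Pool.Agent.MP72V

open scoped Classical

private theorem gdzSha {K : Type} [Field K] {W : WeierstrassCurve K} {p : ℕ} [Fact p.Prime]
    {L : Type} [Field L] [Algebra K L] {h : Gal(L/K) → ZMod p}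
    {z : Gal(L/K) → ZMod p → (W⁄L).toAffine.Point} (hz : MP72Z.InSha W h z) :
    MP72U.InSha W h z :=
  ⟨⟨hz.1.loc, hz.1.sum, hz.1.mul⟩, hz.2⟩

private theorem gdzShap {K : Type} [Field K] {W : WeierstrassCurve K} {p : ℕ} [Fact p.Prime]
    {L : Type} [Field L] [Algebra K L] {h : Gal(L/K) → ZMod p} (hS : MP72U.ShaPFin W h) :
    MP72Z.ShaPFin W h := by
  obtain ⟨T, hT, hS⟩ := hS
  exact ⟨T, hT, fun z hz hn => hS z (gdzSha hz) hn⟩

private theorem gdzIdx {K : Type} [Field K] {W : WeierstrassCurve K} {N : Type} [Field N]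
    [Algebra K N] [dN : DecidableEq N]
    (h : (Affine.Point.map (W' := W.toAffine) (Algebra.ofId K N)).range.FiniteIndex) :
    MP72Z.IdxFin W N := by
  have h1 : dN = fun a b => Classical.propDecidable (a = b) := Subsingleton.elim _ _
  subst h1
  exact h

private theorem gdzGood {K : Type} [Field K] {W : WeierstrassCurve K} {p : ℕ} [Fact p.Prime]
    {D : K} (hg : MP72U.Good W p D) : MP72Z.Good W p D := by
  obtain ⟨θ, h, h1, h2, h3, h4, h5, h6⟩ := hg
  exact ⟨θ, h, h1, h2, h3, h4, gdzShap h5, gdzIdx h6⟩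

private theorem gdzQ (hHas : S_Has) (hFdg : S_Fdg) (hEql : S_Eql) (p : ℕ)
    [Fact p.Prime] (K : Type) [Field K] [CharP K p] (E : WeierstrassCurve K)
    (hIdx : ∀ (D : K) (θ : Kgs K) (h : Gal(Kgs K/K) → ZMod p),
      θ ^ p - θ = algebraMap K (Kgs K) D → (∀ σ : Gal(Kgs K/K), σ θ = θ + ((h σ).val : Kgs K)) →
      HomP p h → (∃ σ, h σ ≠ 0) → (RatV E h).Finite →
      (Affine.Point.map (W' := E.toAffine) (Algebra.ofId K K⟮θ⟯)).range.FiniteIndex)
    (D : K) (hD0 : ¬ ∃ x : K, x ^ p - x = D) (hGd : GdV E (hD p D)) :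
    MP72Q.Good E p D := by
  have hpp : p.Prime := Fact.out
  have hch : CharP (Kgs K) p := charP_of_injective_algebraMap (algebraMap K (Kgs K)).injective p
  obtain ⟨x, hx⟩ := IsSepClosed.exists_root_C_mul_X_pow_add_C_mul_X_add_C (n := p) (1 : Kgs K)
    (-1) (-(algebraMap K (Kgs K) D)) (CharP.cast_eq_zero (Kgs K) p) hpp.two_le
    (neg_ne_zero.2 one_ne_zero)
  have hH := hHas p K (Kgs K) 1 1 one_ne_zero (by rw [one_pow, map_one])
  have hroot : ∃ x : Kgs K, Ph p (algebraMap K (Kgs K) 1) x = algebraMap K (Kgs K) D := by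
    refine ⟨x, ?_⟩
    unfold Ph
    rw [map_one]
    linear_combination hx
  obtain ⟨hcoc, θ, hθ, hσ⟩ := hH.2.2.1 D hroot
  have hom1 := hH.2.2.2.2.2
  have hθ1 : θ ^ p - θ = algebraMap K (Kgs K) D := by
    rw [← hθ]
    unfold Ph
    rw [map_one, one_mul]
  have hσ1 : ∀ σ : Gal(Kgs K/K), σ θ = θ + ((hD p D σ).val : Kgs K) := by
    intro σ
    rw [hσ σ, mul_one]
    rfl
  have hHom : HomP p (hD p D) := by
    refine ⟨hcoc.loc, fun a b => ?_⟩
    have h1 := hcoc.mul a b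
    have h2 : omc p (1 : Kgs K) a * hP p (1 : Kgs K) D b = hP p (1 : Kgs K) D b := by
      rw [hom1, one_mul]
    exact h1.trans (congrArg (fun y => hP p (1 : Kgs K) D a + y) h2)
  have hne : ∃ σ, hD p D σ ≠ 0 := by
    by_contra hcon
    push Not at hcon
    apply hD0
    have hfix : ∀ σ : Gal(Kgs K/K), σ θ = θ := by
      intro σ
      rw [hσ1, hcon, ZMod.val_zero, Nat.cast_zero, add_zero]
    obtain ⟨y, hy⟩ := (InfiniteGalois.mem_range_algebraMap_iff_fixed θ).2 hfix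
    refine ⟨y, (algebraMap K (Kgs K)).injective ?_⟩
    rw [map_sub, map_pow, hy, hθ1]
  obtain ⟨e1, e2⟩ := hEql p K E (hD p D) hGd
  exact ⟨θ, hD p D, hθ1, hσ1, hFdg p K D hD0 θ hθ1, e1, e2,
    hIdx D θ (hD p D) hθ1 hσ1 hHom hne hGd.1⟩

theorem tGdZ (h1 : S_Has) (h2 : S_Fdg) (h3 : S_IdxE) (h4 : S_IdxET) (h5 : S_Eql) : S_GdZ := by
  intro p _ K _ _ W hW D hD0 hGd
  refine gdzGood (qu_good W p D ?_)
  rcases hW with ⟨hp, hNf, -⟩ | ⟨hp, hN2⟩
  · exact gdzQ h1 h2 h5 p K W (fun D θ h => h3 p hp K W hNf D θ h) D hD0 hGd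
  · exact gdzQ h1 h2 h5 p K W (fun D θ h => h4 p hp K W hN2 D θ h) D hD0 hGd

end Pool.Agent.MP72G
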