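import Pool.Agent.Lib.MP_72e2e6_nt.P4.F.Spec

/-!
# MP_72e2e6_nt, theorem T4, part F: KrM, one hundred percent of the kernels over `M` are small
-/

set_option autoImplicit false

namespace Pool.Agent.MP72G

open Finset Pool.Agent.MP72P IntermediateField
open WeierstrassCurve
open Pool.Agent.MP72W (pmap)
open Pool.Agent.MP72V

open scoped Classical

private theorem KrM_arith {a b x y l c : ℕ} (hx : 0 < x) (h1 : a * x ≤ b * y)
    (h2 : b ^ c ≤ l * x ^ c) : a ^ c ≤ l * y ^ c := by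
  have h3 : a ^ c * x ^ c ≤ (l * y ^ c) * x ^ c := by
    calc a ^ c * x ^ c = (a * x) ^ c := (mul_pow _ _ _).symm
      _ ≤ (b * y) ^ c := Nat.pow_le_pow_left h1 c
      _ = b ^ c * y ^ c := mul_pow _ _ _
      _ ≤ (l * x ^ c) * y ^ c := Nat.mul_le_mul_right _ h2
      _ = (l * y ^ c) * x ^ c := by ring
  exact Nat.le_of_mul_le_mul_right h3 (pow_pos hx c)

private theorem KrM_smul {p : ℕ} [Fact p.Prime] {l : ℕ} (a : Oz p) (y : Oq p l) :
    a • y = Ideal.Quotient.mk (Ideal.span {(p : Oz p) ^ l}) a * y := by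
  rw [Algebra.smul_def, Ideal.Quotient.algebraMap_eq]

private theorem KrM_twz {p : ℕ} [Fact p.Prime] {G Q : Type} (l : ℕ)
    (ρ : G → (Q → Oq p l) → (Q → Oq p l)) (h : G → ZMod p) :
    twz (1 - piq p l) ρ h = twz (zo p) ρ h := by
  funext g x q
  show (1 - piq p l) ^ (h g).val * ρ g x q = zo p ^ (h g).val • ρ g x q
  rw [KrM_smul, map_pow]
  unfold piq
  rw [sub_sub_cancel]

/-- the cocycle of the induced lattice -/
private theorem KrM_bet {p : ℕ} {G H Q : Type} [Group G] [TopologicalSpace G]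
    [IsTopologicalGroup G] [Group H] [TopologicalSpace H] [IsTopologicalGroup H] [Group Q]
    [Finite Q] (θ : H →* G) (pq : G →* Q) (s : Q → G) (hemb : Topology.IsOpenEmbedding θ)
    (hpl : IsLocallyConstant pq) (hk : pq.ker = θ.range) (hs : ∀ q, pq (s q) = q)
    (χ : H → ZMod p) (hχ : HomP p χ) :
    ∃ β : G → Q → ZMod p, Bet θ pq s χ β ∧ BetC pq β := by
  have hinj : Function.Injective θ := hemb.injective
  have hex : ∀ (g : G) (q : Q), ∃ h : H, θ h = s q * g * (s (q * pq g))⁻¹ := by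
    intro g q
    have e : s q * g * (s (q * pq g))⁻¹ ∈ pq.ker := by
      rw [MonoidHom.mem_ker, map_mul, map_mul, map_inv, hs, hs, mul_inv_cancel]
    rw [hk] at e
    exact e
  choose hh hhh using hex
  have hmul : ∀ g g' q, hh (g * g') q = hh g q * hh g' (q * pq g) := by
    intro g g' q
    apply hinj
    rw [map_mul, hhh, hhh, hhh, map_mul, mul_assoc q]
    group
  have hcont : ∀ q, Continuous fun g => hh g q := by
    intro q
    rw [hemb.isInducing.continuous_iff]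
    have e : (θ ∘ fun g => hh g q) = fun g => s q * g * (s (q * pq g))⁻¹ :=
      funext fun g => hhh g q
    rw [e]
    have e1 : Continuous fun g => s (q * pq g) :=
      (hpl.comp fun x => s (q * x)).continuous
    exact (continuous_const.mul continuous_id).mul e1.inv
  refine ⟨fun g q => χ (hh g q), ?_, ⟨?_, hpl, ?_⟩⟩
  · intro g q h he
    show χ (hh g q) = χ h
    rw [hinj ((hhh g q).trans he.symm)]
  · have e1 : ∀ q, IsLocallyConstant fun g => χ (hh g q) := fun q =>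
      hχ.loc.comp_continuous (hcont q)
    let _ : TopologicalSpace (ZMod p) := ⊥
    have : DiscreteTopology (ZMod p) := ⟨rfl⟩
    rw [IsLocallyConstant.iff_continuous]
    exact continuous_pi fun q => (IsLocallyConstant.iff_continuous _).1 (e1 q)
  · intro g g' q
    show χ (hh (g * g') q) = χ (hh g q) + χ (hh g' (q * pq g))
    rw [hmul, hχ.add]

/-- **KrM.** One hundred percent of the kernels over `M` are small. -/
theorem tKrM (h1 : S_Lfo) (h2 : S_Zac) (h3 : S_Lin3) (h4 : S_Rdf) (h5 : S_PrA) (h6 : S_GfM)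
    (h7 : S_Hst) (h8 : S_Dcg) (h9 : S_ShA) (h10 : S_Lti) (h11 : S_Rdi) : S_KrM := by
  intro p hp K M _ _ _ _ _ _ hG n hn j J J' av av' κ α h θ pq hT ι ι' d T hgood D₀ hD₀ c ε hc hε
  have hchar : CharP M p := charP_of_injective_algebraMap (algebraMap K M).injective p
  have hGM : GFld p M := h6 p K M hG
  obtain ⟨-, -, -, -, -, -, -, -, -, -, -, -, -, homM, addM, -⟩ :=
    h7 p M hGM J' av' (j α) (algebraMap K M h) hT.hs'
  obtain ⟨-, -, -, -, -, -, om, -, -, -, -, -, -, homK, -, -⟩ := h7 p K hG J av α h hT.hs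
  have hcard : Nat.card Gal(M/K) = p ^ n := by
    rw [IsGalois.card_aut_eq_finrank, hn]
  obtain ⟨s, hs, hs1⟩ : ∃ s : Gal(M/K) → GS p av α, (∀ q, pq (s q) = q) ∧ s 1 = 1 := by
    choose s0 hs0 using hT.pqs
    refine ⟨fun q => if q = 1 then 1 else s0 q, fun q => ?_, if_pos rfl⟩
    by_cases hq : q = 1
    · show pq (if q = 1 then 1 else s0 q) = q
      rw [if_pos hq, map_one, hq]
    · show pq (if q = 1 then 1 else s0 q) = q
      rw [if_neg hq, hs0]
  have hχ : HomP p (hS p av' (j α) D₀) := homM D₀ hD₀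
  obtain ⟨β, hBet, hβ⟩ := KrM_bet θ pq s hT.emb hT.pql hT.pqk hs (hS p av' (j α) D₀) hχ
  have hL := h10 p (GS p av α) Gal(M/K) n hcard pq β hβ
  have hne : Nonempty J := hT.hs.nem
  obtain ⟨k₀, hk₀⟩ := h5 p (GS p av α) J (OS av) d (fzS p av α ι) T hgood
    (Gal(M/K) → Oz p) (indo pq β) hL c ε hc hε
  obtain ⟨x, hDcs⟩ := h8 p K M hG j J J' av av' κ α h θ pq hT ι ι'
  refine ⟨max k₀ 1, fun l N hl hlN ψ hψl hψ1 hψm hψr => ?_⟩
  have hl0 : k₀ ≤ l := le_trans (le_max_left _ _) hl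
  have hl1 : 1 ≤ l := le_trans (le_max_right _ _) hl
  obtain ⟨hΨm, hRdk⟩ := h11 p (GS p av α) Gal(M/K) n hcard pq β hβ N l (hl1.trans hlN) hlN
    (omS p av α) om ψ hψl hψ1 hψm hψr
  obtain ⟨e₀, he₀⟩ := hk₀ l hl0 (Gal(M/K) → Oq p l) (rdq p Gal(M/K) l)
    (ind (piq p l) (fun g => ((ψ g).val : Oq p l)) pq β) hRdk
  refine ⟨e₀, fun 𝒟 h𝒟 hF => ?_⟩
  have hmain := he₀ 𝒟 h𝒟 hF
  refine le_trans ?_ hmain
  have hfinset : {D : OS av | D ∈ 𝒟 ∧ p ^ l * Nat.card (Gal(M/K) → Oq p l) ^ c <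
      (Ker (twz (zo p) (ind (piq p l) (fun g => ((ψ g).val : Oq p l)) pq β)
        ((fzS p av α ι).h D)) (fzS p av α ι).D).ncard ^ c}.Finite :=
    h𝒟.subset fun D hD => hD.1
  refine Nat.cast_le.2 (Set.ncard_le_ncard ?_ hfinset)
  rintro D ⟨hD, hlt⟩
  refine ⟨hD, ?_⟩
  by_contra hcon
  rw [not_lt] at hcon
  -- finiteness
  obtain ⟨φ, hφ⟩ := h1 p l
  have hΛfin : Finite (Oq p l) := by
    refine Nat.finite_of_card_ne_zero ?_
    rw [hφ.lr.card]
    exact pow_ne_zero _ hp.out.ne_zero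
  obtain ⟨hNfin, ⟨s', hs'⟩, hZM, -⟩ := h4 p (GS p av α) (Gal(M/K) → Oz p) (indo pq β)
    (omS p av α) om hL l (Gal(M/K) → Oq p l) (rdq p Gal(M/K) l)
    (ind (piq p l) (fun g => ((ψ g).val : Oq p l)) pq β) hRdk
  have hhd : HomP p (hS p av α (D : K)) := homK D D.2
  obtain ⟨hzp, -, -, -, htw, -⟩ := h2 p (GS p av α) (Oz p) (Gal(M/K) → Oq p l) (zo p)
    (omS p av α) s' hs' (ind (piq p l) (fun g => ((ψ g).val : Oq p l)) pq β) om hZM
  have hact := (htw _ hhd).act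
  obtain ⟨-, -, -, -, -, hKfin, -⟩ := h3 p (GS p av α) J d (omS p av α) (DS p av α ι) T om
    hgood.h2 hgood.ok (Gal(M/K) → Oq p l) s' hs' _ hact
  have hπ : (1 - piq p l) ^ p = 1 := by
    unfold piq
    rw [sub_sub_cancel, ← map_pow, hzp, map_one]
  have hΨ1 : (((ψ 1).val : ℕ) : Oq p l) = 1 := by
    have e : (1 : ZMod (p ^ N)) = ((1 : ℕ) : ZMod (p ^ N)) := by rw [Nat.cast_one]
    rw [hψ1, e, ZMod.val_natCast, Nat.mod_eq_of_lt (Nat.one_lt_pow (by omega) hp.out.one_lt),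
      Nat.cast_one]
  obtain ⟨-, hle⟩ := h9 p (GS p av α) (GS p av' (j α)) Gal(M/K) J J' (Oq p l) θ pq s hT.emb
    hT.pql hT.pqk hs hs1 (DS p av α ι) (DS p av' (j α) ι') κ x hDcs (piq p l) hπ
    (fun g => ((ψ g).val : Oq p l)) (hψl.comp fun z => ((z.val : ℕ) : Oq p l)) hΨ1 hΨm
    (hS p av' (j α) D₀) (hS p av α (D : K)) hχ hhd β hBet (by
      rw [KrM_twz]
      exact hKfin)
  rw [KrM_twz] at hle
  have hfun : (fun g => hS p av' (j α) D₀ g + hS p av α (D : K) (θ g)) =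
      hS p av' (j α) (D₀ + algebraMap K M (D : K)) := by
    funext g
    rw [addM D₀ hD₀ _ (hT.os D D.2).1 g, (hT.os D D.2).2 g]
  rw [hfun] at hle
  have hX : 0 < Nat.card (Gal(M/K) → Oq p l) := Nat.card_pos
  exact absurd (KrM_arith hX hle hcon) (not_le.2 hlt)

end Pool.Agent.MP72G
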