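import Pool.Agent.Lib.MP_72e2e6_nt.P4.F.Spec

/-!
# MP_72e2e6_nt, theorem T4, part F: Lti, the induced lattice
-/

set_option autoImplicit false

namespace Pool.Agent.MP72G

open Finset Pool.Agent.MP72P

private theorem Lti_zpow {p : ℕ} [Fact p.Prime] {R : Type} [CommRing R] {z : R} (hz : z ^ p = 1)
    (a b : ZMod p) : z ^ (a + b).val = z ^ a.val * z ^ b.val := by
  rw [← pow_add, ZMod.val_add]
  conv_rhs => rw [← Nat.mod_add_div (a.val + b.val) p, pow_add, pow_mul, hz, one_pow, mul_one]

private theorem Lti_tf (p : ℕ) [hp : Fact p.Prime] (y : Oz p) (h : (p : Oz p) * y = 0) : y = 0 := by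
  have hm : (∑ i ∈ range p, (Polynomial.X : Polynomial ℤ_[p]) ^ i).Monic :=
    Polynomial.monic_geom_sum_X hp.out.ne_zero
  let b := (AdjoinRoot.powerBasis' hm).basis
  have hp0 : (p : ℤ_[p]) ≠ 0 := by
    rw [Ne, Nat.cast_eq_zero]
    exact hp.out.ne_zero
  have h1 : (p : ℤ_[p]) • y = 0 := by
    rw [← algebraMap_smul (Oz p) (p : ℤ_[p]) y, map_natCast, smul_eq_mul]
    exact h
  apply b.repr.injective
  rw [map_zero]
  ext i
  have h2 : b.repr ((p : ℤ_[p]) • y) i = 0 := by rw [h1, map_zero]; rfl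
  rw [map_smul, Finsupp.smul_apply, smul_eq_mul] at h2
  exact (mul_eq_zero.1 h2).resolve_left hp0

/-- **Lti.** The induced lattice. -/
theorem tLti (h1 : S_Ozb) : S_Lti := by
  intro p hp G Q _ _ _ _ _ r hQ pq β hβ
  obtain ⟨o1, -, -, -⟩ := h1 p
  have hzp : (zo p) ^ p = 1 := by
    have e := geom_sum_mul (zo p) p
    rw [o1, zero_mul] at e
    exact (sub_eq_zero.1 e.symm)
  have hβ1 : ∀ q, β 1 q = 0 := by
    intro q
    have e := hβ.mul 1 1 q
    rw [mul_one, map_one, mul_one] at e
    exact left_eq_add.1 e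
  have hone : ∀ x : Q → Oz p, indo pq β 1 x = x := by
    intro x
    funext q
    show zo p ^ (β 1 q).val * x (q * pq 1) = x q
    rw [hβ1, ZMod.val_zero, pow_zero, map_one, mul_one, one_mul]
  have hmul : ∀ (g h : G) (x : Q → Oz p),
      indo pq β (g * h) x = indo pq β g (indo pq β h x) := by
    intro g h x
    funext q
    show zo p ^ (β (g * h) q).val * x (q * pq (g * h)) =
      zo p ^ (β g q).val * (zo p ^ (β h (q * pq g)).val * x (q * pq g * pq h))
    rw [hβ.mul, Lti_zpow hzp, map_mul, mul_assoc q]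
    ring
  refine ⟨inferInstance, ?_, ?_, ?_, hone, hmul, ?_, ?_⟩
  · intro x hx
    funext q
    exact Lti_tf p (x q) (congrFun hx q)
  · intro g x y
    funext q
    show zo p ^ (β g q).val * (x (q * pq g) + y (q * pq g)) =
      zo p ^ (β g q).val * x (q * pq g) + zo p ^ (β g q).val * y (q * pq g)
    rw [mul_add]
  · intro g c x
    funext q
    show zo p ^ (β g q).val * (c * x (q * pq g)) = c * (zo p ^ (β g q).val * x (q * pq g))
    ring
  · intro x
    let F : (Q → ZMod p) × Q → Q → Oz p := fun t q => zo p ^ (t.1 q).val * x (q * t.2)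
    exact (hβ.loc.prodMk hβ.lpq).comp F
  · intro g
    refine ⟨r + 1, fun x => ?_⟩
    have e1 : pq (g ^ p ^ r) = 1 := by
      rw [map_pow, ← hQ]
      exact pow_card_eq_one'
    have e2 : ∀ (m : ℕ) (y : Q → Oz p), indo pq β ((g ^ p ^ r) ^ m) y =
        fun q => (zo p ^ (β (g ^ p ^ r) q).val) ^ m * y q := by
      intro m
      induction m with
      | zero =>
        intro y
        rw [pow_zero, hone]
        funext q
        rw [pow_zero, one_mul]
      | succ m ih =>
        intro y
        rw [pow_succ, hmul, ih]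
        funext q
        show (zo p ^ (β (g ^ p ^ r) q).val) ^ m *
          (zo p ^ (β (g ^ p ^ r) q).val * y (q * pq (g ^ p ^ r))) = _
        rw [e1, mul_one, pow_succ, mul_assoc]
    rw [pow_succ, pow_mul, e2]
    funext q
    rw [← pow_mul, mul_comm _ p, pow_mul, hzp, one_pow, one_mul]

end Pool.Agent.MP72G
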