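import Pool.Agent.Lib.MP_72e2e6_nt.P4.F.Spec

/-!
# MP_72e2e6_nt, theorem T4, part F: the criterion for one `D`, `p ≠ 2`
-/

namespace Pool.Agent.MP72G

open Finset Pool.Agent.MP72P IntermediateField
open WeierstrassCurve
open Pool.Agent.MP72W (pmap)
open Pool.Agent.MP72V

open scoped Classical

/-- **OneP**. The criterion for one `D`, `p ≠ 2`. -/
theorem tOneP (h1 : MP72V.S_Bas) (h2 : MP72V.S_Or) (h3 : S_VSr) (_h4 : S_Has) (h5 : S_Hst)
    (h6 : S_Rgo) (h7 : S_Fr1V) (h8 : S_OneV) (h9 : S_EN) (h10 : S_UnW) (h11 : S_LoW)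
    (h12 : S_Nbd) (h13 : S_G3z) : S_OneP := by
  intro p _ hp2 K _ _ hK W hNf hOd α h hh0 hαh R hR hσR
  obtain ⟨hfr1, hfr2⟩ := h1.2 K p W hNf
  have hNf1 : IsNf (fr p W 1) := (hfr1 1).1
  have hOd1 : Od p (fr p W 1) := ((h2 p hp2 K W hNf).2.1 1).2 hOd
  have hW0 : fr p W 0 = W := by
    unfold fr
    simp only [pow_zero, pow_one]
  have hW10 : fr p (fr p W 1) 0 = fr p W 1 := hfr2 1 0
  obtain ⟨m1, a1, hPls1, hS1⟩ := h13 p K hK α h hh0 hαh
  obtain ⟨m2, a2, hntr2, hS2⟩ := h10 p hp2 K hK W hNf hOd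
  obtain ⟨m3, a3, hntr3, hS3⟩ := h10 p hp2 K hK (fr p W 1) hNf1 hOd1
  refine ⟨m1 + (m2 + m3), Fin.append a1 (Fin.append a2 a3), ?_, ?_⟩
  · refine Fin.addCases (fun i => ?_) (fun i => ?_)
    · rw [Fin.append_left]
      exact hPls1.ntr i
    · rw [Fin.append_right]
      refine Fin.addCases (fun i => ?_) (fun i => ?_) i
      · rw [Fin.append_left]
        exact hntr2 i
      · rw [Fin.append_right]
        exact hntr3 i
  intro J _ av hPls hcov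
  have cov1 : ∀ i, ∃ j, (av j).IsEquiv (a1 i) := by
    intro i
    have h1 := hcov (Fin.castAdd _ i)
    rwa [Fin.append_left] at h1
  have cov2 : ∀ i, ∃ j, (av j).IsEquiv (a2 i) := by
    intro i
    have h1 := hcov (Fin.natAdd _ (Fin.castAdd _ i))
    rwa [Fin.append_right, Fin.append_left] at h1
  have cov3 : ∀ i, ∃ j, (av j).IsEquiv (a3 i) := by
    intro i
    have h1 := hcov (Fin.natAdd _ (Fin.natAdd _ i))
    rwa [Fin.append_right, Fin.append_right] at h1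
  obtain ⟨hHS, hG3⟩ := hS1 J av hPls cov1
  refine ⟨hHS, fun k => (hS3 J av cov3 k).1, fun k hk => ?_⟩
  choose Mf hMf using fun j => h11 p hp2 K hK (fr p W 1) hNf1 hOd1 (av j) (hPls.ntr j) k
  obtain ⟨M, hM0, hM⟩ : ∃ M : ℝ, 0 < M ∧ ∀ j, Mf j ≤ M := by
    obtain ⟨M, hM⟩ := (Set.finite_range Mf).bddAbove
    exact ⟨max M 1, lt_max_of_lt_right one_pos, fun j => le_max_of_le_left (hM ⟨j, rfl⟩)⟩
  refine ⟨M, fun Q ψ hQψ ι D hD' hDd Λ₁ _ π₁ φ₁ hΛ₁ Λ₂ _ π₂ φ₂ hΛ₂ hnum => ?_⟩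
  obtain ⟨b, hb⟩ := hG3 ι
  obtain ⟨d, T, t, e, y, hTs, -⟩ := hb b
  have hDx : ¬ ∃ x : K, x ^ p - x = D := by
    rintro ⟨x, hx⟩
    obtain ⟨j⟩ := hHS.nem
    have h4 := hDd j (algebraMap K (av j).Completion x)
    rw [← hx, map_sub, map_pow, sub_self, norm_zero] at h4
    exact absurd hM0 (not_lt.2 h4)
  refine ⟨hDx, ?_⟩
  -- the Artin-Schreier homomorphism
  have hst := h5 p K hK J av α h hHS
  obtain ⟨rc, -, -, -, rh, -, -⟩ := h6 p K hK J av α h hHS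
  have hHom : HomP p (hD p D) := by
    have h1 : HomP p (hS p av α D) := hst.2.2.2.2.2.2.2.2.2.2.2.2.2.1 D hD'
    have h2 : hD p D = fun σ => hS p av α D (rG p av α σ) := by
      funext σ
      exact (rh D hD' σ).symm
    rw [h2]
    refine ⟨h1.loc.comp_continuous rc, fun a b => ?_⟩
    rw [map_mul, h1.add]
  have key : GdV (fr p (fr p W 1) 0) (hD p D) := by
    refine h8 p hp2 K hK (fr p W 1) hNf1 hOd1 J av α h hHS ι T t b d e hTs.lt
      (fun k => Sum.inr (y k)) hTs.ok D hD' hDx k hk Q hQψ.q ψ hQψ.loc hQψ.one hQψ.mul hQψ.red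
      hQψ.gal (hS3 J av cov3 k).1 (hS3 J av cov3 k).2 (fun j => ?_) ?_ Λ₁ π₁ φ₁ hΛ₁ Λ₂ π₂ φ₂ hΛ₂
      hnum
    · exact hMf j D (fun y => (hM j).trans (hDd j y)) _
        ((h3 p hp2 K (fr p W 1) hNf1 (Kgs K) k Q hQψ.q).2.2.2 K (Kvs (av j)) (ι j))
    · exact h9 p hp2 K hK (fr p (fr p W 1) 0) (by rw [hW10]; exact hNf1)
        (fun σ => hP p (1 : Kgs K) D σ) hHom k hk
  rw [hW10] at key
  have h4 := h7 p hp2 K W hNf (hD p D) hHom
    (h12 p hp2 K hK W hNf J av α h hHS ι T t b d e hTs.lt (fun k => Sum.inr (y k)) hTs.ok R hR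
      hσR (hS2 J av cov2 1).2 D hD') key
  rwa [hW0] at h4

end Pool.Agent.MP72G
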