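import Pool.Agent.Lib.MP_72e2e6_nt.P4.F.Spec

/-!
# MP_72e2e6_nt, theorem T4, part F: the criterion for one `D`, the case `p = 2`
-/

namespace Pool.Agent.MP72G

open Finset Pool.Agent.MP72P IntermediateField
open WeierstrassCurve
open Pool.Agent.MP72W (pmap)
open Pool.Agent.MP72V

open scoped Classical

/-- **OneT**. The criterion, `p = 2`. -/
theorem tOneT (h1 : S_BasT) (h2 : S_VSrT) (_ : S_Has) (h4 : S_Hst) (h5 : S_Rgo) (h6 : S_Fr1VT)
    (h7 : S_OneVT) (h8 : S_ENT) (h9 : S_UnWT) (h10 : S_LoWT) (h11 : S_NbdT) (h12 : S_G3z) :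
    S_OneT := by
  intro p _ hp2 K _ _ hK W hNf α h hh0 hαh R hR hσR
  obtain ⟨hfr1, hfr2⟩ := h1.2 K p W hNf
  have hNf1 : IsN2 (fr p W 1) := (hfr1 1).1
  have hW0 : fr p W 0 = W := by
    unfold fr
    simp only [pow_zero, pow_one]
  have hW10 : fr p (fr p W 1) 0 = fr p W 1 := hfr2 1 0
  obtain ⟨m1, a1, hPls1, hS1⟩ := h12 p K hK α h hh0 hαh
  obtain ⟨m2, a2, hntr2, hS2⟩ := h9 p hp2 K hK W hNf
  obtain ⟨m3, a3, hntr3, hS3⟩ := h9 p hp2 K hK (fr p W 1) hNf1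
  refine ⟨m1 + (m2 + m3), Fin.append a1 (Fin.append a2 a3), ?_, ?_⟩
  · refine Fin.addCases (fun i => ?_) (fun i => ?_)
    · rw [Fin.append_left]
      exact hPls1.ntr i
    · rw [Fin.append_right]
      refine Fin.addCases (fun i => ?_) (fun i => ?_) i
      · rw [Fin.append_left]
        exact hntr2 i
      · rw [Fin.append_right]
        exact hntr3 i
  intro J _ av hPls hcov
  have cov1 : ∀ i, ∃ j, (av j).IsEquiv (a1 i) := by
    intro i
    have h1 := hcov (Fin.castAdd _ i)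
    rwa [Fin.append_left] at h1
  have cov2 : ∀ i, ∃ j, (av j).IsEquiv (a2 i) := by
    intro i
    have h1 := hcov (Fin.natAdd _ (Fin.castAdd _ i))
    rwa [Fin.append_right, Fin.append_left] at h1
  have cov3 : ∀ i, ∃ j, (av j).IsEquiv (a3 i) := by
    intro i
    have h1 := hcov (Fin.natAdd _ (Fin.natAdd _ i))
    rwa [Fin.append_right, Fin.append_right] at h1
  obtain ⟨hHS, hTs⟩ := hS1 J av hPls cov1
  have hne : Nonempty J := hHS.nem
  -- the Artin-Schreier homomorphisms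
  have hst := h4 p K hK J av α h hHS
  obtain ⟨rc, -, -, -, rh, -, -⟩ := h5 p K hK J av α h hHS
  have hHom : ∀ D ∈ OS av, HomP p (hD p D) := by
    intro D hD'
    have h1 : HomP p (hS p av α D) := hst.2.2.2.2.2.2.2.2.2.2.2.2.2.1 D hD'
    have h2 : hD p D = fun σ => hS p av α D (rG p av α σ) := by
      funext σ
      exact (rh D hD' σ).symm
    rw [h2]
    refine ⟨h1.loc.comp_continuous rc, fun a b => ?_⟩
    rw [map_mul, h1.add]
  refine ⟨hHS, fun k => (hS3 J av cov3 k).1, fun k hk => ?_⟩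
  choose M hM using fun j => h10 p hp2 K hK (fr p W 1) hNf1 (av j) (hPls.ntr j) k
  obtain ⟨B, hB1, hB⟩ : ∃ B : ℝ, 1 ≤ B ∧ ∀ j, M j ≤ B := by
    refine ⟨1 + ∑ j, |M j|, ?_, fun j => ?_⟩
    · have : 0 ≤ ∑ j, |M j| := Finset.sum_nonneg fun j _ => abs_nonneg _
      linarith
    · have := Finset.single_le_sum (f := fun j => |M j|) (fun i _ => abs_nonneg _)
        (Finset.mem_univ j)
      have h2 := le_abs_self (M j)
      linarith
  refine ⟨B, fun Q ψ hQ ι D hD' hdeep Λ₁ _ π₁ φ₁ hL₁ Λ₂ _ π₂ φ₂ hL₂ hineq => ?_⟩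
  obtain ⟨b, hb⟩ := hTs ι
  obtain ⟨d, T, t, e, y, hts, -⟩ := hb b
  have hnx : ¬ ∃ x : K, x ^ p - x = D := by
    rintro ⟨x, hx⟩
    obtain ⟨j⟩ := hne
    have h1 := hdeep j (algebraMap K (av j).Completion x)
    rw [← map_pow, ← map_sub, hx, sub_self, norm_zero] at h1
    linarith
  refine ⟨hnx, ?_⟩
  have hQj : ∀ j, IsQ p (fr p W 1) k (pmap (fr p (fr p W 1) k) (ι j) Q) := fun j =>
    (h2 p hp2 K (fr p W 1) hNf1 (Kgs K) k Q hQ.q).2.2.2 K (Kvs (av j)) (ι j)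
  have hone := h7 p hp2 K hK (fr p W 1) hNf1 J av α h hHS ι T t b d e hts.lt
    (fun k => Sum.inr (y k)) hts.ok D hD' hnx k hk Q hQ.q ψ hQ.loc hQ.one hQ.mul hQ.red hQ.gal
    (hS3 J av cov3 k).1 (hS3 J av cov3 k).2
    (fun j => hM j D (fun y => (hB j).trans (hdeep j y)) _ (hQj j))
    (h8 p hp2 K hK (fr p (fr p W 1) 0) (by rw [hW10]; exact hNf1)
      (fun σ => hP p (1 : Kgs K) D σ) (hHom D hD') k hk) Λ₁ π₁ φ₁ hL₁ Λ₂ π₂ φ₂ hL₂ hineq
  rw [hW10] at hone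
  have h13 := h6 p hp2 K W hNf (hD p D) (hHom D hD')
    (h11 p hp2 K hK W hNf J av α h hHS ι T t b d e hts.lt (fun k => Sum.inr (y k)) hts.ok R hR
      hσR (hS2 J av cov2 1).2 D hD') hone
  rwa [hW0] at h13

end Pool.Agent.MP72G
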