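import Pool.Agent.Lib.MP_72e2e6_nt.P4.F.Spec

/-!
# MP_72e2e6_nt, theorem T4, part F: Rdi, the reduction of the induced lattice
-/

set_option autoImplicit false

namespace Pool.Agent.MP72G

open Finset Pool.Agent.MP72P IntermediateField
open WeierstrassCurve
open Pool.Agent.MP72W (pmap)
open Pool.Agent.MP72V

open scoped Classical

section cast

variable {R : Type} [CommRing R] {m : ℕ}

private theorem Rdi_mod (hm : (m : R) = 0) (x : ℕ) : ((x % m : ℕ) : R) = x := by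
  conv_rhs => rw [← Nat.mod_add_div x m]
  rw [Nat.cast_add, Nat.cast_mul, hm, zero_mul, add_zero]

private theorem Rdi_nat (hm : (m : R) = 0) (x : ℕ) : (((x : ZMod m).val : ℕ) : R) = x := by
  rw [ZMod.val_natCast, Rdi_mod hm]

private theorem Rdi_mul (hm : (m : R) = 0) (x y : ZMod m) :
    (((x * y).val : ℕ) : R) = (x.val : R) * (y.val : R) := by
  rw [ZMod.val_mul, Rdi_mod hm, Nat.cast_mul]

private theorem Rdi_add [NeZero m] (hm : (m : R) = 0) (x y : ZMod m) :
    (((x + y).val : ℕ) : R) = (x.val : R) + (y.val : R) := by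
  rw [ZMod.val_add, Rdi_mod hm, Nat.cast_add]

end cast

private theorem Rdi_zpow {p : ℕ} [Fact p.Prime] {R : Type} [CommRing R] {z : R} (hz : z ^ p = 1)
    (a b : ZMod p) : z ^ (a + b).val = z ^ a.val * z ^ b.val := by
  rw [← pow_add, ZMod.val_add]
  conv_rhs => rw [← Nat.mod_add_div (a.val + b.val) p, pow_add, pow_mul, hz, one_pow, mul_one]

/-- **Rdi.** The reduction of the induced lattice modulo `p ^ l`. -/
theorem tRdi (h1 : S_Ozb) (h2 : S_Lti) : S_Rdi := by
  intro p hp G Q _ _ _ _ _ r hQ pq β hβ n l hn hl ω hω ψ hψl hψ1 hψm hψr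
  have hpl : ((p : Oq p l)) ^ l = 0 := by
    have e : (Ideal.Quotient.mk (Ideal.span {(p : Oz p) ^ l})) ((p : Oz p) ^ l) = 0 :=
      Ideal.Quotient.eq_zero_iff_mem.2 (Ideal.mem_span_singleton_self _)
    rw [map_pow, map_natCast] at e
    exact e
  have hpk : ∀ k, l ≤ k → ((p : Oq p l)) ^ k = 0 := by
    intro k hk
    obtain ⟨j, rfl⟩ := Nat.exists_eq_add_of_le hk
    rw [pow_add, hpl, zero_mul]
  have hm : (((p ^ n : ℕ)) : Oq p l) = 0 := by
    rw [Nat.cast_pow]
    exact hpk n hl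
  have hne : NeZero (p ^ n) := ⟨pow_ne_zero _ hp.out.ne_zero⟩
  obtain ⟨o1, -, -, -⟩ := h1 p
  have hzp : (zo p) ^ p = 1 := by
    have e := geom_sum_mul (zo p) p
    rw [o1, zero_mul] at e
    exact (sub_eq_zero.1 e.symm)
  obtain ⟨z, hz⟩ : ∃ z : Oq p l, z = Ideal.Quotient.mk (Ideal.span {(p : Oz p) ^ l}) (zo p) :=
    ⟨_, rfl⟩
  have hzz : z ^ p = 1 := by rw [hz, ← map_pow, hzp, map_one]
  have hzt : ∀ c : ZMod p, zt (piq p l) c = z ^ c.val := by
    intro c
    unfold zt piq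
    rw [← hz, sub_sub_cancel]
  let Ψ : G → Oq p l := fun g => ((ψ g).val : Oq p l)
  have hΨm : ∀ a b, Ψ (a * b) = Ψ a * Ψ b := by
    intro a b
    show (((ψ (a * b)).val : ℕ) : Oq p l) = ((ψ a).val : Oq p l) * ((ψ b).val : Oq p l)
    rw [hψm, Rdi_mul hm]
  have hΨ1 : Ψ 1 = 1 := by
    show (((ψ 1).val : ℕ) : Oq p l) = 1
    have e : (1 : ZMod (p ^ n)) = ((1 : ℕ) : ZMod (p ^ n)) := by rw [Nat.cast_one]
    rw [hψ1, e, Rdi_nat hm, Nat.cast_one]
  have hΨp : ∀ g m, Ψ (g ^ m) = Ψ g ^ m := by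
    intro g m
    induction m with
    | zero => rw [pow_zero, pow_zero, hΨ1]
    | succ m ih => rw [pow_succ, pow_succ, hΨm, ih]
  have hΨr : ∀ g, ∃ y : Oq p l, Ψ g = ((ω g).val : Oq p l) + p * y := by
    intro g
    obtain ⟨y, hy⟩ := hψr g
    refine ⟨(y.val : Oq p l), ?_⟩
    show (((ψ g).val : ℕ) : Oq p l) = _
    have e : (((p : ZMod (p ^ n)).val : ℕ) : Oq p l) = p := Rdi_nat hm p
    rw [hy, Rdi_add hm, Rdi_mul hm, Rdi_nat hm, e]
  have hrd : ∀ (x : Q → Oz p) (q : Q), rdq p Q l x q =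
      Ideal.Quotient.mk (Ideal.span {(p : Oz p) ^ l}) (x q) := fun x q => rfl
  have hkey : ∀ (g : G) (x : Q → Oz p),
      ind (piq p l) Ψ pq β g (rdq p Q l x) = fun q => Ψ g * rdq p Q l (indo pq β g x) q := by
    intro g x
    funext q
    show Ψ g * zt (piq p l) (β g q) * rdq p Q l x (q * pq g) = _
    rw [hzt, hrd, hrd]
    show _ = Ψ g * Ideal.Quotient.mk (Ideal.span {(p : Oz p) ^ l})
      (zo p ^ (β g q).val * x (q * pq g))
    rw [map_mul, map_pow, ← hz, mul_assoc]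
  have hsur : Function.Surjective (rdq p Q l) := by
    intro f
    choose x hx using fun q => Ideal.Quotient.mk_surjective (f q)
    exact ⟨x, funext fun q => by rw [hrd, hx]⟩
  have hL := h2 p G Q r hQ pq β hβ
  have hβ1 : ∀ q, β 1 q = 0 := by
    intro q
    have e := hβ.mul 1 1 q
    rw [mul_one, map_one, mul_one] at e
    exact left_eq_add.1 e
  refine ⟨hΨm, hsur, ?_, ⟨?_, ?_, ?_, ?_, ?_⟩, ?_⟩
  · intro x
    constructor
    · intro h
      have e : ∀ q, ∃ y : Oz p, x q = (p : Oz p) ^ l * y := by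
        intro q
        have e1 := congrFun h q
        rw [hrd] at e1
        have e2 := Ideal.Quotient.eq_zero_iff_mem.1 e1
        obtain ⟨y, hy⟩ := Ideal.mem_span_singleton.1 e2
        exact ⟨y, hy⟩
      choose y hy using e
      exact ⟨y, funext hy⟩
    · rintro ⟨y, rfl⟩
      funext q
      rw [hrd]
      exact Ideal.Quotient.eq_zero_iff_mem.2 (Ideal.mem_span_singleton.2 ⟨y q, rfl⟩)
  · intro g x y
    funext q
    show Ψ g * zt (piq p l) (β g q) * (x (q * pq g) + y (q * pq g)) =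
      Ψ g * zt (piq p l) (β g q) * x (q * pq g) + Ψ g * zt (piq p l) (β g q) * y (q * pq g)
    rw [mul_add]
  · intro x
    funext q
    show Ψ 1 * zt (piq p l) (β 1 q) * x (q * pq 1) = x q
    rw [hΨ1, hzt, hβ1, ZMod.val_zero, pow_zero, map_one, mul_one, mul_one, one_mul]
  · intro g h x
    funext q
    show Ψ (g * h) * zt (piq p l) (β (g * h) q) * x (q * pq (g * h)) =
      Ψ g * zt (piq p l) (β g q) *
        (Ψ h * zt (piq p l) (β h (q * pq g)) * x (q * pq g * pq h))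
    rw [hzt, hzt, hzt, hΨm, hβ.mul, Rdi_zpow hzz, map_mul, mul_assoc q]
    ring
  · intro x
    let F : ZMod (p ^ n) × ((Q → ZMod p) × Q) → Q → Oq p l := fun t q =>
      ((t.1.val : ℕ) : Oq p l) * zt (piq p l) (t.2.1 q) * x (q * t.2.2)
    exact ((hψl.prodMk (hβ.loc.prodMk hβ.lpq)).comp F)
  · intro g
    obtain ⟨k₀, hk₀⟩ := hL.pow g
    refine ⟨k₀ + l, fun f => ?_⟩
    obtain ⟨x, rfl⟩ := hsur f
    have e1 : ∀ m : ℕ, ∀ y, indo pq β ((g ^ p ^ k₀) ^ m) y = y := by
      intro m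
      induction m with
      | zero => intro y; rw [pow_zero, hL.one]
      | succ m ih => intro y; rw [pow_succ, hL.mul, hk₀, ih]
    have e2 : indo pq β (g ^ p ^ (k₀ + l)) x = x := by
      have e3 : g ^ p ^ (k₀ + l) = (g ^ p ^ k₀) ^ p ^ l := by rw [← pow_mul, ← pow_add]
      rw [e3, e1]
    have e4 : Ψ (g ^ p ^ (k₀ + l)) = (((ω g).val ^ p ^ (k₀ + l) : ℕ) : Oq p l) := by
      rw [hΨp, Nat.cast_pow]
      obtain ⟨y, hy⟩ := hΨr g
      have e5 : (p : Oq p l) ∣ Ψ g - ((ω g).val : Oq p l) := ⟨y, by rw [hy]; ring⟩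
      have e6 := dvd_sub_pow_of_dvd_sub e5 (k₀ + l)
      rw [hpk _ (by omega), zero_dvd_iff] at e6
      exact sub_eq_zero.1 e6
    rw [hkey, e2, e4]
    funext q
    rw [Pi.smul_apply, nsmul_eq_mul]
  · intro g
    refine ⟨(ψ g).val, ?_, fun x => ?_⟩
    · intro hdvd
      obtain ⟨y, hy⟩ := hψr g
      let c : ZMod (p ^ n) →+* ZMod p := ZMod.castHom (dvd_pow_self p (by omega)) (ZMod p)
      have e1 : c (ψ g) = 0 := by
        rw [← ZMod.natCast_zmod_val (ψ g), map_natCast]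
        exact (ZMod.natCast_eq_zero_iff _ _).2 hdvd
      rw [hy, map_add, map_mul, map_natCast, map_natCast, CharP.cast_eq_zero (ZMod p) p, zero_mul, add_zero,
        ZMod.natCast_zmod_val] at e1
      exact hω.ne g e1
    · rw [hkey]
      funext q
      rw [Pi.smul_apply, nsmul_eq_mul]

end Pool.Agent.MP72G
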