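import Pool.Agent.Lib.MP_72e2e6_nt.P4.F.Spec

/-!
# MP_72e2e6_nt, theorem T4, part F: Rex, the point `R` and the element `α`
-/

set_option autoImplicit false

namespace Pool.Agent.MP72G

open Finset Pool.Agent.MP72P IntermediateField
open WeierstrassCurve
open Pool.Agent.MP72W (pmap)
open Pool.Agent.MP72V

open scoped Classical

/-- **Rex.** The point `R` and the element `α`. -/
theorem tRex (h1 : Pool.Agent.MP72V.S_Rk) (h2 : S_RkT) (h3 : S_Alp) (h4 : S_AlpT) : S_Rex := by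
  intro p _ K _ _ W hW
  rcases hW with ⟨hp, hN, hO⟩ | ⟨hp, hN⟩
  · obtain ⟨R, hR⟩ := ((h1 p hp K W hN (Kgs K)).1 hO).2 1
    obtain ⟨α, h, hh, hα, hσ⟩ := h3 p hp K W hN R hR
    exact ⟨R, α, h, hR, hh, hα, hσ⟩
  · obtain ⟨R, hR⟩ := (h2 p hp K W hN (Kgs K)).1.2 1
    obtain ⟨α, h, hh, hα, hσ⟩ := h4 p hp K W hN R hR
    exact ⟨R, α, h, hR, hh, hα, hσ⟩

end Pool.Agent.MP72G
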