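import Pool.Agent.Lib.MP_72e2e6_nt.P4.F.Spec

/-!
# MP_72e2e6_nt, theorem T4, part F: the theorem with the internal definitions
-/

namespace Pool.Agent.MP72G

open Finset Pool.Agent.MP72P IntermediateField
open WeierstrassCurve
open Pool.Agent.MP72W (pmap)
open Pool.Agent.MP72V

open scoped Classical

private theorem thmM_ocr (h15 : S_OneP) (h16 : S_OneT) (p : ℕ) [Fact p.Prime] (K : Type) [Field K]
    [CharP K p] (hK : GFld p K) (W : WeierstrassCurve K) (hW : Gc p W) (α : Kgs K) (h : K)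
    (hh : h ≠ 0) (hα : α ^ (p - 1) = algebraMap K (Kgs K) h) (R : Pt p W 1 (Kgs K))
    (hR : IsR p W 1 R)
    (hs : ∀ σ : Gal(Kgs K/K), pmap (fr p W 1) (σ : Kgs K →ₐ[K] Kgs K) R = (omc p α σ).val • R) :
    OCr p W α h := by
  rcases hW with ⟨hp, h1, h2⟩ | ⟨hp, h1⟩
  · exact h15 p hp K hK W h1 h2 α h hh hα R hR hs
  · exact h16 p hp K hK W h1 α h hh hα R hR hs

private theorem thmM_arith {p k a b c₁ c₂ : ℕ} (hp : 2 ≤ p) (hk : 3 ≤ k)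
    (h1 : a ^ 4 ≤ p ^ (k + 1) * c₁ ^ 4) (h2 : b ^ 4 ≤ p ^ k * c₂ ^ 4) (hc₁ : 0 < c₁)
    (hc₂ : 0 < c₂) : p * a * b < p ^ k * (c₁ * c₂) := by
  refine lt_of_pow_lt_pow_left₀ 4 (Nat.zero_le _) ?_
  calc (p * a * b) ^ 4 = p ^ 4 * (a ^ 4 * b ^ 4) := by ring
    _ ≤ p ^ 4 * ((p ^ (k + 1) * c₁ ^ 4) * (p ^ k * c₂ ^ 4)) :=
        Nat.mul_le_mul_left _ (Nat.mul_le_mul h1 h2)
    _ = p ^ (4 + (k + 1) + k) * (c₁ * c₂) ^ 4 := by
        rw [pow_add, pow_add, mul_pow]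
        ring
    _ < p ^ (k * 4) * (c₁ * c₂) ^ 4 := by
        refine Nat.mul_lt_mul_of_pos_right ?_ (by positivity)
        exact Nat.pow_lt_pow_right (by omega) (by omega)
    _ = (p ^ k * (c₁ * c₂)) ^ 4 := by
        rw [mul_pow (p ^ k), ← pow_mul]

/-- Three small exceptional sets. -/
private theorem thmM_sum {X : Type} {S S₁ S₂ S₃ 𝒟 : Set X} (hD : 𝒟.Finite) (ε N : ℝ)
    (h₁ : S₁ ⊆ 𝒟) (h₂ : S₂ ⊆ 𝒟) (h₃ : S₃ ⊆ 𝒟) (hS : ∀ x ∈ S, x ∈ S₁ ∨ x ∈ S₂ ∨ x ∈ S₃)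
    (hε : 0 < ε) (hN : 0 ≤ N) (e₁ : (S₁.ncard : ℝ) ≤ ε / 4 * N) (e₂ : (S₂.ncard : ℝ) ≤ ε / 4 * N)
    (e₃ : (S₃.ncard : ℝ) ≤ ε / 4 * N) : (S.ncard : ℝ) ≤ ε * N := by
  have f₁ := hD.subset h₁
  have f₂ := hD.subset h₂
  have f₃ := hD.subset h₃
  have h1 : S ⊆ S₁ ∪ (S₂ ∪ S₃) := hS
  have h2 : S.ncard ≤ S₁.ncard + (S₂.ncard + S₃.ncard) :=
    (Set.ncard_le_ncard h1 (f₁.union (f₂.union f₃))).trans
      ((Set.ncard_union_le _ _).trans (Nat.add_le_add_left (Set.ncard_union_le _ _) _))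
  have h3 : (S.ncard : ℝ) ≤ S₁.ncard + (S₂.ncard + S₃.ncard) := by exact_mod_cast h2
  have h4 : 0 ≤ ε * N := by positivity
  linarith

theorem tThmM (h1 : S_Na) (h2 : S_Ntr) (h3 : S_FiK) (h4 : S_GfM) (h5 : S_Jex) (h6 : S_Plm)
    (_ : S_HsM) (h8 : S_Twm) (h9 : S_PiM) (h10 : S_DpM) (h11 : S_GcM) (h12 : S_QPm)
    (h13 : S_Lfo) (h14 : S_G3z) (h15 : S_OneP) (h16 : S_OneT) (h17 : S_Rex) (h18 : S_PsC)
    (h19 : S_KrM) : S_ThmM := by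
  intro p _ K M _ _ _ _ _ _ hK r hfin W hW D₀
  have hp2 : 2 ≤ p := (Fact.out : p.Prime).two_le
  have hM : GFld p M := h4 p K M hK
  have hcM : CharP M p := charP_of_injective_algebraMap (algebraMap K M).injective p
  obtain ⟨j, hj⟩ := h5 K M
  obtain ⟨R, α, h, hR, hh, hα, hRs⟩ := h17 p K W hW
  have hα0 : α ≠ 0 := by
    rintro rfl
    rw [zero_pow (by omega)] at hα
    exact hh ((algebraMap K (Kgs K)).injective (by rw [← hα, map_zero]))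
  have hW' : Gc p (W.map (algebraMap K M)) := (h11 p K M W).2.1 hW
  obtain ⟨R', hR', hRs'⟩ := (h12 p K M W hW).2 j hj α h hα0 hα 1 R hR hRs
  have hh' : algebraMap K M h ≠ 0 := by
    rw [Ne, map_eq_zero]
    exact hh
  have hα' : (j α) ^ (p - 1) = algebraMap M (Kgs M) (algebraMap K M h) := by
    rw [← map_pow, hα]
    exact hj h
  obtain ⟨m1, u1, hu1, hO1⟩ := thmM_ocr h15 h16 p K hK W hW α h hh hα R hR hRs
  obtain ⟨m2, u2, hu2, hO2⟩ := thmM_ocr h15 h16 p M hM (W.map (algebraMap K M)) hW' (j α)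
    (algebraMap K M h) hh' hα' R' hR' hRs'
  obtain ⟨m3, u3, hu3, hG⟩ := h14 p K hK α h hh hα
  obtain ⟨m4, u4, hu4, hT⟩ := h8 p K M hK r hfin j hj D₀
  let I : Type := Fin m1 ⊕ (Fin m2 ⊕ (Fin m3 ⊕ Fin m4))
  let u : I → AbsoluteValue K ℝ :=
    Sum.elim u1 (Sum.elim (fun i => rsa K (u2 i)) (Sum.elim u3 u4))
  have hu : ∀ i, (u i).IsNontrivial := by
    rintro (i | i | i | i)
    · exact hu1 i
    · exact h2 p K M (u2 i) (hu2 i)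
    · exact hu3.ntr i
    · exact hu4 i
  let e := Fintype.equivFin I
  refine ⟨Fintype.card I, fun i => u (e.symm i), fun i => hu _, ?_⟩
  intro n av hav hcov
  have hc : ∀ i : I, ∃ l, (av l).IsEquiv (u i) := by
    intro i
    have := hcov (e i)
    simp only [Equiv.symm_apply_apply] at this
    exact this
  have hc1 : ∀ i, ∃ l, (av l).IsEquiv (u1 i) := fun i => hc (Sum.inl i)
  have hc2 : ∀ i, ∃ l, (av l).IsEquiv (rsa K (u2 i)) := fun i => hc (Sum.inr (Sum.inl i))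
  have hc3 : ∀ i, ∃ l, (av l).IsEquiv (u3 i) := fun i => hc (Sum.inr (Sum.inr (Sum.inl i)))
  have hc4 : ∀ i, ∃ l, (av l).IsEquiv (u4 i) := fun i => hc (Sum.inr (Sum.inr (Sum.inr i)))
  refine ⟨?_, ?_⟩
  · intro e
    have hf := h3 p K hK (Fin n) av hav (2 ^ e)
    refine (hf.preimage (f := fun x : OS av => (x : K)) Subtype.val_injective.injOn).subset ?_
    intro x hx
    exact ⟨x.2, fun l => hx l (h1 p K (av l))⟩
  intro ε hε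
  obtain ⟨hHS, hHUn, _⟩ := hO1 (Fin n) av hav hc1
  obtain ⟨m', av', κ, habo⟩ := h6 p K M (Fin n) av hav
  obtain ⟨hin, hD0⟩ := hT (Fin n) av hc4
  have hD0' : D₀ ∈ OS av' := hD0 (Fin m') av' κ habo
  obtain ⟨θ, pq, htr⟩ := h9 p K M hK j hj (Fin n) (Fin m') av av' κ habo α h hHS (hin α)
  obtain ⟨ι⟩ : Nonempty (∀ l, Kgs K →ₐ[K] Kvs (av l)) := ⟨fun l => IsSepClosed.lift⟩
  obtain ⟨ι'⟩ : Nonempty (∀ w, Kgs M →ₐ[M] Kvs (av' w)) := ⟨fun w => IsSepClosed.lift⟩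
  obtain ⟨b, hb⟩ := (hG (Fin n) av hav hc3).2 ι
  obtain ⟨d, T, t, ee, y, _, hGood⟩ := hb b
  have hcov' : ∀ i, ∃ w, (av' w).IsEquiv (u2 i) := by
    intro i
    obtain ⟨l, hl⟩ := hc2 i
    obtain ⟨w, hw⟩ := habo.cpl (u2 i) ⟨l, hl.symm⟩
    exact ⟨w, hw.symm⟩
  obtain ⟨_, _, hOk'⟩ := hO2 (Fin m') av' habo.pls hcov'
  obtain ⟨k₀, hk₀⟩ := h19 p K M hK r hfin j (Fin n) (Fin m') av av' κ α h θ pq htr ι ι' d _ hGood
    D₀ hD0' 4 (ε / 4) (by norm_num) (by positivity)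
  obtain ⟨k, hk0, hk3⟩ : ∃ k, k₀ ≤ k ∧ 3 ≤ k := ⟨max k₀ 3, le_max_left _ _, le_max_right _ _⟩
  obtain ⟨Q, ψ, hQ⟩ := h18 p K hK W hW (Fin n) av α h hHS R hR hRs k (hHUn k)
  have hX : Gc p (fr p W 1) := (h11 p K M W).2.2 hW 1
  have hQ' : ∃ Q' : Pt p (fr p (W.map (algebraMap K M)) 1) k (Kgs M),
      QPs p (fr p (W.map (algebraMap K M)) 1) av' (j α) k Q' fun g => ψ (θ g) := by
    rw [(h11 p K M W).1 1]
    exact (h12 p K M (fr p W 1) hX).1 j (Fin n) (Fin m') av av' κ α h θ pq htr k Q ψ hQ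
  obtain ⟨Q', hQ'⟩ := hQ'
  obtain ⟨B, hB⟩ := hOk' k (by omega)
  obtain ⟨e₁, he₁⟩ := hk₀ (k + 1) (k + 1) (by omega) le_rfl ψ hQ.loc hQ.one hQ.mul hQ.red
  obtain ⟨e₂, he₂⟩ := hk₀ k (k + 1) hk0 (by omega) ψ hQ.loc hQ.one hQ.mul hQ.red
  obtain ⟨e₃, he₃⟩ := h10 p K M hK j (Fin n) (Fin m') av av' κ α h θ pq htr D₀ B (ε / 4)
    (by positivity)
  have hmono : Monotone (FS av) := hGood.mono
  refine ⟨max e₁ (max e₂ e₃), ?_⟩
  intro 𝒟 hfinD hle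
  have g₁ := he₁ 𝒟 hfinD ((hmono (le_max_left _ _)).trans hle)
  have g₂ := he₂ 𝒟 hfinD ((hmono ((le_max_left _ _).trans (le_max_right _ _))).trans hle)
  have g₃ := he₃ 𝒟 hfinD ((hmono ((le_max_right _ _).trans (le_max_right _ _))).trans hle)
  refine thmM_sum hfinD ε (Nat.card 𝒟) (fun D hD => hD.1) (fun D hD => hD.1) (fun D hD => hD.1)
    ?_ hε (Nat.cast_nonneg _) g₁ g₂ g₃
  rintro D ⟨hD, hbad⟩
  by_contra hcon
  push Not at hcon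
  obtain ⟨n₁, n₂, n₃⟩ := hcon
  apply hbad
  have q₁ := not_lt.1 fun hlt => n₁ ⟨hD, hlt⟩
  have q₂ := not_lt.1 fun hlt => n₂ ⟨hD, hlt⟩
  have q₃ : ∀ w (y : (av' w).Completion), B ≤ ‖algebraMap M (av' w).Completion
      (D₀ + algebraMap K M (D : K)) - (y ^ p - y)‖ := by
    intro w y
    by_contra hlt
    exact n₃ ⟨hD, w, y, not_le.1 hlt⟩
  obtain ⟨φ₁, hφ₁⟩ := h13 p (k + 1)
  obtain ⟨φ₂, hφ₂⟩ := h13 p k
  have hc₁ : Nat.card (Oq p (k + 1)) = p ^ ((k + 1) * (p - 1)) := hφ₁.lr.card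
  have hc₂ : Nat.card (Oq p k) = p ^ (k * (p - 1)) := hφ₂.lr.card
  rw [hc₁] at q₁
  rw [hc₂] at q₂
  have hpos : ∀ m : ℕ, 0 < p ^ m := fun m => pow_pos (by omega) m
  exact hB Q' (fun g => ψ (θ g)) hQ' ι' (D₀ + algebraMap K M (D : K))
    ((OS av').add_mem hD0' (htr.os D D.2).1) q₃ (Oq p (k + 1)) (piq p (k + 1)) φ₁ hφ₁
    (Oq p k) (piq p k) φ₂ hφ₂ (thmM_arith hp2 hk3 q₁ q₂ (hpos _) (hpos _))

end Pool.Agent.MP72G
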