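import Pool.Agent.Lib.MP_72e2e6_nt.P4.F.Spec

/-!
# MP_72e2e6_nt, theorem T4, part F: the final statement
-/

namespace Pool.Agent.MP72G

open WeierstrassCurve IntermediateField
open Pool.Agent.MP72P Pool.Agent.MP72V

open scoped Classical

private theorem uniM_good {K M : Type} [Field K] [Field M] [Algebra K M] (h4 : S_VchG) (p : ℕ)
    [Fact p.Prime] (E : WeierstrassCurve K) (C : VariableChange K) (D : M)
    (hD : MP72Z.Good ((C • E).map (algebraMap K M)) p D) :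
    MP72Z.Good (E.map (algebraMap K M)) p D := by
  have h5 : (C • E).map (algebraMap K M) =
      C.map (algebraMap K M) • E.map (algebraMap K M) :=
    (map_variableChange E C (algebraMap K M)).symm
  rw [h5] at hD
  exact h4 p M _ _ _ hD

theorem tUniM (h1 : S_Sgf) (h2 : S_Nfp) (h3 : S_FinM) (h4 : S_VchG) : S_UniM := by
  intro p _ K M _ _ _ hG hfd hgal hr E hE hP D₀
  obtain ⟨r, hr⟩ := hr
  have g := h1 p K hG
  have hch : CharP K p := by
    obtain ⟨F, _, _, _, _, _, _⟩ := g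
    exact charP_of_injective_algebraMap (algebraMap (RatFunc F) K).injective p
  obtain ⟨C, c1, c2⟩ := h2 p K E hE hP
  have hGc : Gc p (C • E) := by
    by_cases hp : p = 2
    · exact Or.inr ⟨hp, c2 hp⟩
    · exact Or.inl ⟨hp, (c1 hp).1, (c1 hp).2⟩
  obtain ⟨m, av₀, k1, k2⟩ := h3 p K M g r hr (C • E) hGc D₀
  refine ⟨m, av₀, k1, ?_⟩
  intro n av hav hav' ε hε
  obtain ⟨B₀, hB₀⟩ := k2 n av hav hav' ε hε
  refine ⟨B₀, fun B hB => ?_⟩
  obtain ⟨g1, g2⟩ := hB₀ B hB
  refine ⟨g1, g2.trans (Nat.cast_le.2 (Set.ncard_le_ncard ?_ (g1.subset fun x hx => hx.1)))⟩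
  rintro D ⟨hD, hGD⟩
  exact ⟨hD, uniM_good h4 p E C _ hGD⟩

end Pool.Agent.MP72G
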