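import Pool.Agent.Lib.MP_72e2e6_nt.P4.F.Spec
import Pool.Agent.Lib.MP_72e2e6_nt.W2.E.Cov

/-!
# MP_72e2e6_nt, theorem T4, part F: the property does not change under changes of variables
-/

namespace Pool.Agent.MP72G

open WeierstrassCurve IntermediateField

private theorem vchG_fin {A B A' B' : Type*} [AddGroup A] [AddGroup B] [AddGroup A'] [AddGroup B']
    (f : A →+ B) (f' : A' →+ B') (e : A ≃+ A') (e' : B ≃+ B') (he : ∀ a, e' (f a) = f' (e a))
    (h : f.range.FiniteIndex) : f'.range.FiniteIndex := by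
  have h1 : f.range = f'.range.comap e'.toAddMonoidHom := by
    ext b
    rw [AddSubgroup.mem_comap, AddMonoidHom.mem_range, AddMonoidHom.mem_range]
    constructor
    · rintro ⟨a, rfl⟩
      exact ⟨e a, (he a).symm⟩
    · rintro ⟨a, ha⟩
      refine ⟨e.symm a, ?_⟩
      apply e'.injective
      rw [he, AddEquiv.apply_symm_apply]
      exact ha
  constructor
  have h2 := h.index_ne_zero
  rw [h1, AddSubgroup.index_comap_of_surjective _ e'.surjective] at h2
  exact h2

/-- Isomorphisms of the groups of points over all extensions. -/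
private structure VIso {K : Type} [Field K] (W W' : WeierstrassCurve K) where
  φ : ∀ (L : Type) [Field L] [Algebra K L], (W⁄L).toAffine.Point → (W'⁄L).toAffine.Point
  bij : ∀ (L : Type) [Field L] [Algebra K L], Function.Bijective (φ L)
  add : ∀ (L : Type) [Field L] [Algebra K L] (d : DecidableEq L) (P Q : (W⁄L).toAffine.Point),
    φ L (P + Q) = φ L P + φ L Q
  nat : ∀ (S L M : Type) [Field S] [Field L] [Field M] [Algebra K S] [Algebra K L] [Algebra K M]
    [Algebra S L] [Algebra S M] [IsScalarTower K S L] [IsScalarTower K S M] (f : L →ₐ[S] M)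
    (P : (W⁄L).toAffine.Point), φ M (MP72Z.pmap W f P) = MP72Z.pmap W' f (φ L P)

open scoped Classical in
private theorem vchG_ex {K : Type} [Field K] {W W' : WeierstrassCurve K} (h : MP72W.PtIso W W') :
    Nonempty (VIso W W') := by
  obtain ⟨φ, hφ⟩ := h
  refine ⟨⟨fun L _ _ => φ L, fun L _ _ => (φ L).bijective, ?_, ?_⟩⟩
  · intro L _ _ d P Q
    have hd : d = fun a b => Classical.propDecidable (a = b) := Subsingleton.elim _ _
    subst hd
    exact map_add (φ L) P Q
  · intro S L M _ _ _ _ _ _ _ _ _ _ f P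
    exact hφ S L M f P

section

variable {K : Type} [Field K] {W W' : WeierstrassCurve K} (I : VIso W W')

/-- The homomorphism on points. -/
private noncomputable def vchG_e (L : Type) [Field L] [Algebra K L] [d : DecidableEq L] :
    (W⁄L).toAffine.Point ≃+ (W'⁄L).toAffine.Point :=
  AddEquiv.mk' (Equiv.ofBijective (I.φ L) (I.bij L)) (I.add L d)

private theorem vchG_e_apply (L : Type) [Field L] [Algebra K L] [d : DecidableEq L]
    (P : (W⁄L).toAffine.Point) : vchG_e I L P = I.φ L P := rfl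

open scoped Classical

include I in
private theorem vchG_idx (M : Type) [Field M] [Algebra K M] (h : MP72Z.IdxFin W M) :
    MP72Z.IdxFin W' M := by
  refine vchG_fin _ _ (vchG_e I K) (vchG_e I M) ?_ h
  intro P
  rw [vchG_e_apply, vchG_e_apply]
  exact I.nat K K M (Algebra.ofId K M) P

variable {p : ℕ} [Fact p.Prime] {L : Type} [Field L] [Algebra K L] (h : Gal(L/K) → ZMod p)

private theorem vchG_sum {ι : Type*} (s : Finset ι) (v : ι → (W⁄L).toAffine.Point)
    (hv : ∑ i ∈ s, v i = 0) : ∑ i ∈ s, I.φ L (v i) = 0 := by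
  have h1 := congrArg (vchG_e I L) hv
  rw [map_sum, map_zero] at h1
  exact h1

private theorem vchG_add (P Q : (W⁄L).toAffine.Point) : I.φ L (P + Q) = I.φ L P + I.φ L Q :=
  I.add L _ P Q

private theorem vchG_sub (P Q : (W⁄L).toAffine.Point) : I.φ L (P - Q) = I.φ L P - I.φ L Q :=
  map_sub (vchG_e I L) P Q

private theorem vchG_smul (n : ℕ) (P : (W⁄L).toAffine.Point) : I.φ L (n • P) = n • I.φ L P :=
  map_nsmul (vchG_e I L) n P

private theorem vchG_rat (v : ZMod p → (W⁄L).toAffine.Point) (hv : v ∈ MP72Z.Rat W h) :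
    (fun i => I.φ L (v i)) ∈ MP72Z.Rat W' h := by
  refine ⟨vchG_sum I _ _ hv.1, ?_⟩
  intro σ i
  change MP72Z.pmap W' (σ : L →ₐ[K] L) (I.φ L (v (i - h σ))) = I.φ L (v i)
  rw [← I.nat K L L, hv.2 σ i]

private theorem vchG_coc (z : Gal(L/K) → ZMod p → (W⁄L).toAffine.Point)
    (hz : MP72Z.IsCoc W h z) : MP72Z.IsCoc W' h (fun σ i => I.φ L (z σ i)) := by
  refine ⟨hz.loc.comp (fun w i => I.φ L (w i)), fun σ => vchG_sum I _ _ (hz.sum σ), ?_⟩
  intro σ τ i
  rw [hz.mul σ τ i, vchG_add, I.nat K L L]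

private theorem vchG_loc (z : Gal(L/K) → ZMod p → (W⁄L).toAffine.Point) (M N : Type) [Field M]
    [Field N] [Algebra K M] [Algebra K N] [Algebra M N] [IsScalarTower K M N]
    (hz : MP72Z.LocTriv W h z M N) : MP72Z.LocTriv W' h (fun σ i => I.φ L (z σ i)) M N := by
  intro ι
  obtain ⟨Q, hQ, hQ'⟩ := hz ι
  refine ⟨fun i => I.φ N (Q i), vchG_sum I _ _ hQ, ?_⟩
  intro σ τ hστ i
  change MP72Z.pmap W' ι (I.φ L (z σ i)) =
    MP72Z.pmap W' (τ : N →ₐ[M] N) (I.φ N (Q (i - h σ))) - I.φ N (Q i)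
  rw [← I.nat K L N ι, hQ' σ τ hστ i, vchG_sub, I.nat M N N]

private theorem vchG_sha (z : Gal(L/K) → ZMod p → (W⁄L).toAffine.Point)
    (hz : MP72Z.InSha W h z) : MP72Z.InSha W' h (fun σ i => I.φ L (z σ i)) := by
  refine ⟨vchG_coc I h z hz.1, ?_⟩
  intro v hv M N _ _ _ _ _ _ _ _ h1 h2
  exact vchG_loc I h z M N (hz.2 v hv M N h1 h2)

private theorem vchG_cob (z : Gal(L/K) → ZMod p → (W⁄L).toAffine.Point)
    (hz : MP72Z.IsCob W h z) : MP72Z.IsCob W' h (fun σ i => I.φ L (z σ i)) := by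
  obtain ⟨P, hP, hP2⟩ := hz
  refine ⟨fun i => I.φ L (P i), vchG_sum I _ _ hP, ?_⟩
  intro σ i
  change I.φ L (z σ i) = MP72Z.pmap W' (σ : L →ₐ[K] L) (I.φ L (P (i - h σ))) - I.φ L (P i)
  rw [hP2 σ i, vchG_sub, I.nat K L L]

private theorem vchG_shap (J : VIso W' W) (hJ : ∀ P : (W'⁄L).toAffine.Point, I.φ L (J.φ L P) = P)
    (hS : MP72Z.ShaPFin W h) : MP72Z.ShaPFin W' h := by
  obtain ⟨T, hT, hS⟩ := hS
  refine ⟨(fun z σ i => I.φ L (z σ i)) '' T, hT.image _, ?_⟩
  rintro z hz ⟨n, hn⟩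
  have hn' : MP72Z.IsCob W h fun σ i => p ^ n • J.φ L (z σ i) := by
    have h0 := vchG_cob J h _ hn
    have h1 : (fun (σ : Gal(L/K)) (i : ZMod p) => J.φ L (p ^ n • z σ i)) =
        fun σ i => p ^ n • J.φ L (z σ i) := by
      funext σ i
      exact vchG_smul J _ _
    rw [← h1]
    exact h0
  obtain ⟨y, hy, hc⟩ := hS (fun σ i => J.φ L (z σ i)) (vchG_sha J h z hz) ⟨n, hn'⟩
  refine ⟨_, ⟨y, hy, rfl⟩, ?_⟩
  have h0 := vchG_cob I h _ hc
  have h1 : (fun (σ : Gal(L/K)) (i : ZMod p) => I.φ L (J.φ L (z σ i) - y σ i)) =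
      fun σ i => z σ i - I.φ L (y σ i) := by
    funext σ i
    rw [vchG_sub, hJ]
  rw [← h1]
  exact h0

end

open scoped Classical in
private theorem vchG_good {K : Type} [Field K] {W W' : WeierstrassCurve K}
    (h : MP72W.PtIso W W') (p : ℕ) [Fact p.Prime] (D : K) (hg : MP72Z.Good W p D) :
    MP72Z.Good W' p D := by
  obtain ⟨I⟩ := vchG_ex h
  obtain ⟨J, hJ⟩ : ∃ J : VIso W' W, ∀ (L : Type) [Field L] [Algebra K L]
      (P : (W'⁄L).toAffine.Point), I.φ L (J.φ L P) = P := by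
    refine ⟨⟨fun L _ _ => (Equiv.ofBijective _ (I.bij L)).symm,
      fun L _ _ => (Equiv.ofBijective _ (I.bij L)).symm.bijective, ?_, ?_⟩, ?_⟩
    · intro L _ _ d P Q
      apply (I.bij L).1
      rw [I.add L d]
      exact (Equiv.apply_symm_apply (Equiv.ofBijective _ (I.bij L)) (P + Q)).trans
        (congrArg₂ (· + ·) (Equiv.apply_symm_apply (Equiv.ofBijective _ (I.bij L)) P).symm
          (Equiv.apply_symm_apply (Equiv.ofBijective _ (I.bij L)) Q).symm)
    · intro S L M _ _ _ _ _ _ _ _ _ _ f P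
      apply (I.bij M).1
      rw [I.nat S L M f]
      exact (Equiv.apply_symm_apply (Equiv.ofBijective _ (I.bij M)) _).trans
        (congrArg (MP72Z.pmap W' f)
          (Equiv.apply_symm_apply (Equiv.ofBijective _ (I.bij L)) P).symm)
    · intro L _ _ P
      exact Equiv.apply_symm_apply (Equiv.ofBijective _ (I.bij L)) P
  obtain ⟨θ, h, h1, h2, h3, h4, h5, h6⟩ := hg
  refine ⟨θ, h, h1, h2, h3, ?_, ?_, ?_⟩
  · refine (h4.image (fun v i => I.φ (SeparableClosure K) (v i))).subset ?_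
    intro v hv
    refine ⟨fun i => J.φ (SeparableClosure K) (v i), vchG_rat J h v hv, ?_⟩
    funext i
    exact hJ _ _
  · exact vchG_shap I h J (hJ _) h5
  · exact vchG_idx I _ h6

theorem tVchG : S_VchG := by
  intro p _ K _ E C D hD
  exact vchG_good (MP72W.tCov K E C) p D hD

end Pool.Agent.MP72G
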