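import Pool.Agent.Lib.MP_72e2e6_nt.P4.F.Lit
import Pool.Agent.Lib.MP_72e2e6_nt.P4.R.Spec
import Pool.Agent.Lib.MP_72e2e6_nt.P4.V.Spec
import Pool.Agent.Lib.MP_72e2e6_nt.P4.T.Spec
import Pool.Agent.Lib.MP_72e2e6_nt.P3.F.Spec
import Pool.Agent.Lib.MP_72e2e6_nt.P3.U.Spec

/-!
# MP_72e2e6_nt, theorem T4, part F (assembly): definitions
-/

namespace Pool.Agent.MP72G

open Finset Pool.Agent.MP72P IntermediateField
open WeierstrassCurve
open Pool.Agent.MP72W (pmap)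
open Pool.Agent.MP72V

open scoped Classical

/-- The ring `ℤ_p[ζ] / p ^ l`. -/
abbrev Oq (p : ℕ) [Fact p.Prime] (l : ℕ) : Type := Oz p ⧸ Ideal.span {(p : Oz p) ^ l}

/-- The element `1 - ζ`. -/
noncomputable abbrev piq (p : ℕ) [Fact p.Prime] (l : ℕ) : Oq p l :=
  1 - Ideal.Quotient.mk (Ideal.span {(p : Oz p) ^ l}) (zo p)

/-- The operators of the induced lattice. -/
noncomputable def indo {p : ℕ} [Fact p.Prime] {G Q : Type} [Group G] [Group Q] (pq : G →* Q)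
    (β : G → Q → ZMod p) (g : G) (f : Q → Oz p) (q : Q) : Oz p :=
  zo p ^ (β g q).val * f (q * pq g)

/-- The reduction modulo `p ^ l` of the functions on `Q`. -/
noncomputable def rdq (p : ℕ) [Fact p.Prime] (Q : Type) (l : ℕ) :
    (Q → Oz p) →ₗ[Oz p] (Q → Oq p l) :=
  LinearMap.pi fun q => (Submodule.mkQ (Ideal.span {(p : Oz p) ^ l})).comp (LinearMap.proj q)

/-- `β` is a locally constant cocycle with values in the functions on `Q`. -/
structure BetC {p : ℕ} {G Q : Type} [Group G] [TopologicalSpace G] [Group Q] (pq : G →* Q)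
    (β : G → Q → ZMod p) : Prop where
  loc : IsLocallyConstant β
  lpq : IsLocallyConstant pq
  mul : ∀ g h q, β (g * h) q = β g q + β h (q * pq g)

/-- The criterion for one `D` (`S_OneV` and its consequences) for all large families of places: if `D` is
deep at all places `av j` and the two kernels are small then `D` is good. -/
def OCr (p : ℕ) [Fact p.Prime] {K : Type} [Field K] [CharP K p] (W : WeierstrassCurve K)
    (α : Kgs K) (h : K) : Prop :=
  ∃ (m : ℕ) (av₀ : Fin m → AbsoluteValue K ℝ), (∀ i, (av₀ i).IsNontrivial) ∧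
    ∀ (J : Type) [Fintype J] (av : J → AbsoluteValue K ℝ), Pls av →
      (∀ i, ∃ j, (av j).IsEquiv (av₀ i)) →
      HS p av α h ∧ (∀ k, HUn p (fr p W 1) av k) ∧
      ∀ k, 1 ≤ k → ∃ B : ℝ, ∀ (Q : Pt p (fr p W 1) k (Kgs K))
        (ψ : GS p av α → ZMod (p ^ (k + 1))), QPs p (fr p W 1) av α k Q ψ →
        ∀ ι : ∀ j, Kgs K →ₐ[K] Kvs (av j), ∀ D ∈ OS av,
        (∀ j (y : (av j).Completion), B ≤ ‖algebraMap K (av j).Completion D - (y ^ p - y)‖) →
        ∀ (Λ₁ : Type) [CommRing Λ₁] (π₁ : Λ₁) (φ₁ : (ZMod p → ZMod (p ^ (k + 1))) → Λ₁),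
        IsLam p (k + 1) π₁ φ₁ →
        ∀ (Λ₂ : Type) [CommRing Λ₂] (π₂ : Λ₂) (φ₂ : (ZMod p → ZMod (p ^ k)) → Λ₂),
        IsLam p k π₂ φ₂ →
        p * (Ker (rL (tw π₁ (fun g => ((ψ g).val : Λ₁)) (hS p av α D))) (DS p av α ι)).ncard *
          (Ker (rL (tw π₂ (fun g => ((ψ g).val : Λ₂)) (hS p av α D))) (DS p av α ι)).ncard <
            p ^ k * (p ^ ((k + 1) * (p - 1)) * p ^ (k * (p - 1))) →
        (¬ ∃ x : K, x ^ p - x = D) ∧ GdV W (hD p D)

end Pool.Agent.MP72G
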