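import Pool.Agent.Lib.MP_72e2e6_nt.P3.U.LitZ

/-!
# MP_72e2e6_nt: Galois extensions of `p`-power degree of a global function field of characteristic `p`
(statement)

`M/K` is a finite Galois extension, `E` an elliptic curve over `K`, `D₀ ∈ M`. For `D ∈ K` let `M(θ)/M` be the
extension given by `θ ^ p - θ = D₀ + D`. The definitions of `P3/U/LitZ.lean` are used for the curve `E` over
the field `M`.
-/

namespace Pool.Agent.MP72Z

open WeierstrassCurve

/-- The theorem for the curve `E` over `K`, the extension `M` of `K` and `D₀ ∈ M`: for a proportion of the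
`D ∈ K` which tends to one, `D₀ + D` is good for the curve `E` over `M`. -/
def ThmOver (p : ℕ) [Fact p.Prime] {K M : Type} [Field K] [Field M] [Algebra K M]
    (E : WeierstrassCurve K) (D₀ : M) : Prop :=
  ∃ (m : ℕ) (av₀ : Fin m → AbsoluteValue K ℝ), (∀ i, (av₀ i).IsNontrivial) ∧
    ∀ (n : ℕ) (av : Fin n → AbsoluteValue K ℝ), Places av →
      (∀ i, ∃ j, (av j).IsEquiv (av₀ i)) →
      ∀ ε : ℝ, 0 < ε → ∃ B₀ : ℝ, ∀ B : Fin n → ℝ, (∀ j, B₀ ≤ B j) →
        (Tw av B).Finite ∧
        (1 - ε) * ((Tw av B).ncard : ℝ) ≤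
          ({D ∈ Tw av B | Good (E.map (algebraMap K M)) p (D₀ + algebraMap K M D)}.ncard : ℝ)

open scoped Classical in
/-- THE THEOREM. -/
def T4 : Prop :=
  ∀ (p : ℕ) [Fact p.Prime] (K M : Type) [Field K] [Field M] [Algebra K M], IsGlobal p K →
    FiniteDimensional K M → IsGalois K M → (∃ r : ℕ, Module.finrank K M = p ^ r) →
    ∀ E : WeierstrassCurve K, E.Δ ≠ 0 →
    (∃ P : (E⁄(AlgebraicClosure K)).toAffine.Point, P ≠ 0 ∧ p • P = 0) →
    ∀ D₀ : M, ThmOver p E D₀

end Pool.Agent.MP72Z
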