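import Pool.Agent.Lib.MP_72e2e6_nt.P4.F.Spec

/-!
# MP_72e2e6_nt, theorem T4, part F: `S_PsC`
-/

set_option autoImplicit false

namespace Pool.Agent.MP72G

open Finset Pool.Agent.MP72P IntermediateField
open WeierstrassCurve
open Pool.Agent.MP72W (pmap)
open Pool.Agent.MP72V

open scoped Classical

private theorem psc_ord {L : Type} [Field L] (X : WeierstrassCurve.Affine L)
    (d d' : DecidableEq L) (R : X.Point) (n : ℕ)
    (h : @addOrderOf X.Point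
      (@Affine.Point.instAddCommGroup L _ X d).toAddGroup.toSubNegMonoid.toAddMonoid R = n) :
    @addOrderOf X.Point
      (@Affine.Point.instAddCommGroup L _ X d').toAddGroup.toSubNegMonoid.toAddMonoid R = n := by
  have e : d = d' := Subsingleton.elim _ _
  subst e
  exact h

theorem tPsC (_ : MP72V.S_Bas) (_ : S_BasT) (h3 : S_PsiV) (h4 : S_PsiVT) (h5 : S_IsO)
    (h6 : S_GcM) : S_PsC := by
  intro p _ K _ _ hGF W hW J av α h hHS R hR hσ k hUn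
  have hW1 : Gc p (fr p W 1) := (h6 p K K W).2.2 hW 1
  have hfr : fr p (fr p W 1) 0 = fr p W 1 := by
    simp [fr]
  have hR0 : R ≠ 0 := by
    have h1 := hR.2 0 one_pos
    rw [pow_zero] at h1
    intro h2
    apply h1
    rw [h2]
    exact nsmul_zero 1
  have hpR : p • R = 0 := by
    have h1 := ((h5 p K W hW (Kgs K) 1).2 R).mp hR
    rw [pow_one] at h1
    have h2 : addOrderOf R = p := psc_ord _ _ _ R p h1
    exact addOrderOf_dvd_iff_nsmul_eq_zero.mp (dvd_of_eq h2)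
  have key : ∀ W' : WeierstrassCurve K, W' = fr p W 1 →
      ∃ T : (W'⁄(Kgs K)).toAffine.Point, T ≠ 0 ∧ p • T = 0 ∧
        ∀ σ : Gal(Kgs K/K), pmap W' (σ : Kgs K →ₐ[K] Kgs K) T = (omc p α σ).val • T := by
    rintro _ rfl
    exact ⟨R, hR0, hpR, hσ⟩
  obtain ⟨T, hT0, hpT, hTσ⟩ := key _ hfr
  rcases hW1 with ⟨hp, hNf, hOd⟩ | ⟨hp, hN2⟩
  · obtain ⟨Q, ψ, -, q1, q2, q3, q4, q5, q6⟩ :=
      h3 p hp K hGF (fr p W 1) hNf hOd J av α h hHS T hT0 hpT hTσ k hUn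
    exact ⟨Q, ψ, ⟨q1, q2, q3, q4, q5, q6⟩⟩
  · obtain ⟨Q, ψ, -, q1, q2, q3, q4, q5, q6⟩ :=
      h4 p hp K hGF (fr p W 1) hN2 J av α h hHS T hT0 hpT hTσ k hUn
    exact ⟨Q, ψ, ⟨q1, q2, q3, q4, q5, q6⟩⟩

end Pool.Agent.MP72G
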