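import Pool.Agent.Lib.MP_72e2e6_nt.P4.F.Defs

/-!
# MP_72e2e6_nt, theorem T4, part F (assembly)

The proofs are complete in the docstrings; every module is independent (used statements are
hypotheses): file `P4/F/<Name>.lean` (import this file only) with `theorem t<Name> : S_<Name>` or
`theorem t<Name> (h1 : S_X) (h2 : S_Y) .. : S_<Name>` (in the order of the docstring), namespace
`Pool.Agent.MP72G` (`open Pool.Agent.MP72P`, `open Pool.Agent.MP72V`), other declarations `private`,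
`open scoped Classical`. All types are in `Type`. Statements of `P3` (namespace `Pool.Agent.MP72P`; files `P3/F/Spec.lean`,
`P3/F/Ifc.lean`, `P3/E/Spec.lean`, `P3/E/SpecB.lean`, `P3/EN/Spec.lean`, `P3/E2/Spec.lean` (the case `p = 2`, names with the suffix `T`),
`P3/G/Spec.lean`, `P3/N/Spec.lean`, `P3/U/Spec.lean`) and of the parts Z, R, V, T of `P4` may be used. The literal definitions and the final
statement `MP72Z.T4` are in `P3/U/LitZ.lean` and `P4/F/Lit.lean`.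
-/

namespace Pool.Agent.MP72G

open Finset Pool.Agent.MP72P IntermediateField
open WeierstrassCurve
open Pool.Agent.MP72W (pmap)
open Pool.Agent.MP72V

open scoped Classical

/-! ### 1. The criterion for one `D` -/

/-- **OneP** (300 lines, uses `MP72V.S_Bas`, `MP72V.S_Or`, `S_VSr`, `S_Has`, `S_Hst`, `S_Rgo`, `S_Fr1V`, `S_OneV`, `S_EN`, `S_UnW`,
`S_LoW`, `S_Nbd`, `S_G3z`). The criterion, `p ≠ 2`.

Proof. See `P3/F/Thm.lean`. `W₁ = fr p W 1`: `IsNf`, `Od p W₁` (`S_Or` (2)), `fr p W₁ 0 = fr p W 1`, `fr p W 0 = W` (`S_Bas` (2)). `av₀` is the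
union of the families of `S_G3z` for `α`, `h`, and of `S_UnW` for `W` and for `W₁` (all nontrivial). `HS`: `S_G3z`; `HUn`: `S_UnW`. Let `k ≥ 1`, `B ≥ 1` greater
than the constants of `S_LoW` for `W₁`, `av j` and `k` (`j ∈ J`, finite). Let `Q`, `ψ`, `ι`, `D` be given. `S_G3z` gives `b` and for
`w₀ = b` the data of `TsH`; so `LTs` (`TsH.lt`) and `Ok` (`TsH.ok`, `y₀ k = Sum.inr (y k)`). `D ≠ x ^ p - x` for `x ∈ K`: `J` is not empty (`HS.nem`) and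
`‖D - (x ^ p - x)‖ = 0 < B`. `HLo`: by `S_LoW` for `pmap (fr p W₁ k) (ι j) Q`, which is `IsQ` (`S_VSr` (4)). `HEn`: `S_EN` for the curve
`fr p W₁ 0` (`hD p D` is `HomP` by `S_Has` for `α = 1`, or `S_Rgo` and `S_Hst`). `HWu p W₁ av k`: `S_UnW`. `S_OneV` for `W₁` gives `GdV (fr p W₁ 0) (hD p D)`,
that is `GdV (fr p W 1) (hD p D)`. `S_Nbd` (with `R`, `HWu p W av 1`) and `S_Fr1V` give `GdV (fr p W 0) (hD p D)`. -/
def S_OneP : Prop :=
  ∀ (p : ℕ) [Fact p.Prime], p ≠ 2 → ∀ (K : Type) [Field K] [CharP K p], GFld p K →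
    ∀ W : WeierstrassCurve K, IsNf W → Od p W → ∀ (α : Kgs K) (h : K), h ≠ 0 →
    α ^ (p - 1) = algebraMap K (Kgs K) h → ∀ R : Pt p W 1 (Kgs K), IsR p W 1 R →
    (∀ σ : Gal(Kgs K/K), pmap (fr p W 1) (σ : Kgs K →ₐ[K] Kgs K) R = (omc p α σ).val • R) →
    OCr p W α h

/-- **OneT** (300 lines, uses `S_BasT`, `S_VSrT`, `S_Has`, `S_Hst`, `S_Rgo`, `S_Fr1VT`, `S_OneVT`, `S_ENT`, `S_UnWT`,
`S_LoWT`, `S_NbdT`, `S_G3z`). The criterion, `p = 2`.

Proof. As `S_OneP` with the statements for `p = 2` (`IsN2 W` in the place of `IsNf W`, `Od p W`; `HWuT` in the place of `HWu`); see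
`P3/E2/Thm.lean`. -/
def S_OneT : Prop :=
  ∀ (p : ℕ) [Fact p.Prime], p = 2 → ∀ (K : Type) [Field K] [CharP K p], GFld p K →
    ∀ W : WeierstrassCurve K, IsN2 W → ∀ (α : Kgs K) (h : K), h ≠ 0 →
    α ^ (p - 1) = algebraMap K (Kgs K) h → ∀ R : Pt p W 1 (Kgs K), IsR p W 1 R →
    (∀ σ : Gal(Kgs K/K), pmap (fr p W 1) (σ : Kgs K →ₐ[K] Kgs K) R = (omc p α σ).val • R) →
    OCr p W α h

/-- **Rex** (80 lines, uses `MP72V.S_Rk`, `S_RkT`, `S_Alp`, `S_AlpT`). The point `R` and the element `α`.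

Proof. `S_Rk` (2) (`k = 1`, `L = Kgs K`, separably closed) and `S_Alp`; `S_RkT`, `S_AlpT` for `p = 2`. -/
def S_Rex : Prop :=
  ∀ (p : ℕ) [Fact p.Prime] (K : Type) [Field K] [CharP K p] (W : WeierstrassCurve K), Gc p W →
    ∃ (R : Pt p W 1 (Kgs K)) (α : Kgs K) (h : K), IsR p W 1 R ∧ h ≠ 0 ∧
      α ^ (p - 1) = algebraMap K (Kgs K) h ∧
      ∀ σ : Gal(Kgs K/K), pmap (fr p W 1) (σ : Kgs K →ₐ[K] Kgs K) R = (omc p α σ).val • R

/-- **PsC** (150 lines, uses `MP72V.S_Bas`, `S_BasT`, `S_PsiV`, `S_PsiVT`, `S_IsO`, `S_GcM`). The point `Q` and the character `ψ`.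

Proof. `W₁ = fr p W 1` satisfies `Gc` (`S_GcM`), and `fr p W₁ 0 = W₁` (`x ^ p ^ 0 = x`), so `R` gives a point `T` of `Pt p W₁ 0 (Kgs K)` (transport along the
equality) with `T ≠ 0`, `p • T = 0` (`S_IsO`: `addOrderOf R = p ^ 1`) and `σ T = (omc p α σ).val • T`. `S_PsiV` (`p ≠ 2`) or `S_PsiVT` (`p = 2`) for `W₁`;
`HUn` is the hypothesis there. -/
def S_PsC : Prop :=
  ∀ (p : ℕ) [Fact p.Prime] (K : Type) [Field K] [CharP K p], GFld p K →
    ∀ W : WeierstrassCurve K, Gc p W → ∀ (J : Type) (av : J → AbsoluteValue K ℝ) (α : Kgs K)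
      (h : K), HS p av α h → ∀ R : Pt p W 1 (Kgs K), IsR p W 1 R →
    (∀ σ : Gal(Kgs K/K), pmap (fr p W 1) (σ : Kgs K →ₐ[K] Kgs K) R = (omc p α σ).val • R) →
    ∀ k, HUn p (fr p W 1) av k → ∃ (Q : Pt p (fr p W 1) k (Kgs K))
      (ψ : GS p av α → ZMod (p ^ (k + 1))), QPs p (fr p W 1) av α k Q ψ

/-! ### 2. The kernels over `M` -/

/-- **Lti** (200 lines, uses `S_Ozb`). The induced lattice.

Proof. `ζ = zo p`, `ζ ^ p = 1` (`S_Ozb`), so `ζ ^ (a + b).val = ζ ^ a.val * ζ ^ b.val` for `a, b ∈ ZMod p`. `fg`: a finite product of `Oz p`. `tf`: componentwise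
(`Oz p` is a free module over `ℤ_[p]`, `AdjoinRoot.powerBasis'` for the monic polynomial, so it has no `p`-torsion). `add`, `lin`: clear. `one`: `β 1 q = 0` (`BetC.mul` for `1 * 1`). `mul`:
`indo g (indo h f) q = ζ ^ β g q * ζ ^ β h (q * pq g) * f (q * pq g * pq h)`. `loc`: `β` and `pq` are locally constant. `pow`: `Q` has `p ^ r` elements, so `g' = g ^ p ^ r`
satisfies `pq g' = 1`, `β (g' ^ m) q = m * β g' q`, so `β (g' ^ p) q = 0` and `indo (g ^ p ^ (r + 1)) = id`. -/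
def S_Lti : Prop :=
  ∀ (p : ℕ) [Fact p.Prime] (G Q : Type) [Group G] [TopologicalSpace G] [IsTopologicalGroup G]
    [Group Q] [Finite Q] (r : ℕ), Nat.card Q = p ^ r → ∀ (pq : G →* Q) (β : G → Q → ZMod p),
    BetC pq β → Ltc p (indo pq β)

/-- **Rdi** (250 lines, uses `S_Ozb`, `S_Lti`). The reduction of the induced lattice modulo `p ^ l`.

Proof. `Ψ g = ((ψ g).val : Oq p l)`; `p ^ l = 0` in `Oq p l` and `l ≤ n`, so `m ↦ (m.val : Oq p l)` is a ring homomorphism from `ZMod (p ^ n)` (`n ≥ 1`), and `Ψ` is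
multiplicative. `zt (piq p l) c = (mk ζ) ^ c.val`. So `ind (piq p l) Ψ pq β g (rdq x) = Ψ g * rdq (indo g x)` (*). `sur`, `ker`: componentwise. `act`: `add`, `one`, `mul` as in
`S_Lti` (and `Ψ`), `loc`: clear. `uni`: by `S_Lti` (`pow`) there is `k` with `indo (g ^ p ^ k) = id`, hence also for all larger `k`; `Ψ (g ^ p ^ k) = (Ψ g) ^ p ^ k` and
`Ψ g = (ω g).val + p y` in `Oq p l`, so `(Ψ g) ^ p ^ k = (ω g).val ^ p ^ k` for `k ≥ l` (`a ≡ b` modulo `p ^ i` implies `a ^ p ≡ b ^ p` modulo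
`p ^ (i + 1)`). With (*) and the surjectivity of `rdq`. `eqv`: `c = (ψ g).val`, not divisible by `p` as `ω g ≠ 0` (`red`, `n ≥ 1`). -/
def S_Rdi : Prop :=
  ∀ (p : ℕ) [Fact p.Prime] (G Q : Type) [Group G] [TopologicalSpace G] [IsTopologicalGroup G]
    [Group Q] [Finite Q] (r : ℕ), Nat.card Q = p ^ r → ∀ (pq : G →* Q) (β : G → Q → ZMod p),
    BetC pq β → ∀ (n l : ℕ), 1 ≤ n → l ≤ n → ∀ ω : G → ZMod p, ChO p ω →
    ∀ ψ : G → ZMod (p ^ n), IsLocallyConstant ψ → ψ 1 = 1 → (∀ a b, ψ (a * b) = ψ a * ψ b) →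
    (∀ a, ∃ y, ψ a = ((ω a).val : ZMod (p ^ n)) + p * y) →
    (∀ a b, (((ψ (a * b)).val : ℕ) : Oq p l) = ((ψ a).val : Oq p l) * ((ψ b).val : Oq p l)) ∧
    Rdk p ω (indo pq β) l (rdq p Q l) (ind (piq p l) (fun g => ((ψ g).val : Oq p l)) pq β)

/-- **KrM** (350 lines, uses `S_Lfo`, `S_Zac`, `S_Lin3`, `S_Rdf`, `S_PrA`, `S_GfM`, `S_Hst`, `S_Dcg`, `S_ShA`, `S_Lti`, `S_Rdi`). One hundred percent of the
kernels over `M` are small.

Proof. `G = GS p av α`, `H = GS p av' (j α)`, `Q = Gal(M/K)`, of order `p ^ n`. Let `s : Q → G` be a section of `pq` (`TrD.pqs`) with `s 1 = 1`, `χ₀ = hS p av' (j α) D₀`, `HomP`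
by `S_Hst` for `M` (`S_GfM`). `s q * g * (s (q * pq g))⁻¹` is in the kernel of `pq`, so it is `θ (h g q)` for a unique `h g q ∈ H` (`TrD.pqk`, `TrD.emb`); let
`β g q = χ₀ (h g q)`: `Bet θ pq s χ₀ β`. `BetC pq β`: `h (g g') q = h g q * h g' (q * pq g)`, and `β` is locally constant (`pq` is locally constant, `θ⁻¹` is continuous on the
open range, `χ₀` is locally constant; `Q` is finite). `S_PrA` for `A = fzS p av α ι`, `L = Q → Oz p`, `r = indo pq β` (`S_Lti`) gives `k₀` for `c`, `ε`; take `max k₀ 1`.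
Let `l`, `N`, `ψ` be given, `Λ = Oq p l`, `Ψ g = ((ψ g).val : Λ)`. `S_Rdi` gives `Rdk` for `ρ = ind (piq p l) Ψ pq β`, so `e₀` with: for `𝒟 ≥ FS av e₀` the number of the
`D ∈ 𝒟` with `p ^ l * #(Q → Λ) ^ c < #Ker_D ^ c`, `Ker_D = Ker (twz (zo p) ρ (hS D)) (DS p av α ι)`, is at most `ε #𝒟`. `twz (zo p) ρ h = twz (1 - piq p l) ρ h`
(`zo p ^ m • f = (mk (zo p)) ^ m • f`). `Ker_D` is finite: `S_Rdf` (`ZM` and the order of `N`), `S_Zac` (5) (`twz ..` is of the type `ZM`, so `ActP`) and `S_Lin3` (6) (`Fz.Good`: `om`, `h2`, `ok`). `x w` and `Dcs` by `S_Dcg`. `S_ShA` (`π = piq p l`, `(1 - π) ^ p = mk (zo p) ^ p = 1`, `hd = hS D`, `HomP` by `S_Hst`):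
`#Ker'_D * #(Q → Λ) ≤ #Ker_D * #Λ`, `Ker'_D` the kernel for `H` and the function `χ₀ h + hS D (θ h) = hS' (D₀ + D) h` (`TrD.os`, `S_Hst` for `M`: additivity for
`D₀`, `D ∈ OS av'`). So if `#Ker_D ^ c ≤ p ^ l * #(Q → Λ) ^ c` then `#Ker'_D ^ c ≤ p ^ l * #Λ ^ c` (cancel `#(Q → Λ) ^ c > 0`; `Λ` is finite, `S_Lfo`). -/
def S_KrM : Prop :=
  ∀ (p : ℕ) [Fact p.Prime] (K M : Type) [Field K] [Field M] [Algebra K M]
    [FiniteDimensional K M] [IsGalois K M] [CharP K p], GFld p K → ∀ n : ℕ,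
    Module.finrank K M = p ^ n → ∀ (j : Kgs K ≃+* Kgs M) (J J' : Type)
      (av : J → AbsoluteValue K ℝ) (av' : J' → AbsoluteValue M ℝ) (κ : J' → J) (α : Kgs K)
      (h : K) (θ : GS p av' (j α) →* GS p av α) (pq : GS p av α →* Gal(M/K)),
      TrD p j av av' κ α h θ pq →
    ∀ (ι : ∀ i, Kgs K →ₐ[K] Kvs (av i)) (ι' : ∀ w, Kgs M →ₐ[M] Kvs (av' w)) (d : ℕ)
      (T : Tst (GS p av α) J d), (fzS p av α ι).Good T → ∀ D₀ ∈ OS av',
    ∀ (c : ℕ) (ε : ℝ), 1 ≤ c → 0 < ε → ∃ k₀ : ℕ, ∀ l N, k₀ ≤ l → l ≤ N →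
      ∀ ψ : GS p av α → ZMod (p ^ N), IsLocallyConstant ψ → ψ 1 = 1 →
      (∀ a b, ψ (a * b) = ψ a * ψ b) →
      (∀ a, ∃ y, ψ a = ((omS p av α a).val : ZMod (p ^ N)) + p * y) →
      ∃ e₀ : ℕ, ∀ 𝒟 : AddSubgroup (OS av), (𝒟 : Set (OS av)).Finite → FS av e₀ ≤ 𝒟 →
      ({D : OS av | D ∈ 𝒟 ∧ p ^ l * Nat.card (Oq p l) ^ c <
        (Ker (rL (tw (piq p l) (fun g => ((ψ (θ g)).val : Oq p l))
          (hS p av' (j α) (D₀ + algebraMap K M (D : K))))) (DS p av' (j α) ι')).ncard ^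
            c}.ncard : ℝ) ≤ ε * Nat.card 𝒟

/-! ### 3. The theorem -/

/-- **ThmM** (350 lines, uses `S_Na`, `S_Ntr`, `S_FiK`, `S_GfM`, `S_Jex`, `S_Plm`, `S_HsM`, `S_Twm`, `S_PiM`, `S_DpM`, `S_GcM`, `S_QPm`, `S_Lfo`, `S_G3z`,
`S_OneP`, `S_OneT`, `S_Rex`, `S_PsC`, `S_KrM`). THE THEOREM with the internal definitions.

Proof. `R`, `α`, `h` by `S_Rex`, `j` by `S_Jex`, `GFld p M`, `CharP M p`. `W' = W.map (algebraMap K M)`, `Gc p W'` (`S_GcM`), and `R'` for `W'` by `S_QPm` (2) (`k = 1`). By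
`S_OneP`, `S_OneT` `OCr p W α h` and `OCr p W' (j α) (algebraMap K M h)`. `av₀` is the union of: the family of `OCr p W α h`; the restrictions `rsa K (u i)` of the family `u` of
`OCr p W' ..` (nontrivial by `S_Ntr`); the family of `S_G3z` for `K`, `α`, `h`; the family of `S_Twm` for `D₀`. Let `av : Fin n → ..` be given. `HS p av α h` and `HUn p (fr p W 1) av k`
by `OCr`. `(FS av e)` is finite by `S_FiK` (`S_Na`). `av'`, `κ`, `Abo` by `S_Plm`; `av'` covers the `u i`: `rsa K (u i)` is equivalent to some `av l`, so `u i` to some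
`av' w` (`cpl`). By `S_Twm` `j⁻¹ M ⊆ OmS` and `D₀ ∈ OS av'`. `S_PiM` gives `θ`, `pq`, `TrD`. Embeddings `ι`, `ι'` exist (`IsSepClosed.lift`). `S_G3z` gives `b` and for `w₀ = b` a
test system with `Good`. Let `ε > 0`, `k₀` as in `S_KrM` for `c = 4` and `ε / 4`, `k = max k₀ 3`. `Q`, `ψ` by `S_PsC`; `Q'` with `QPs` for `fr p W' 1 = (fr p W 1).map (algebraMap K M)`
(`S_GcM`) and `ψ ∘ θ` by `S_QPm` (1) for the curve `fr p W 1` (`Gc` by `S_GcM`). Let `B` be the constant of `OCr p W' ..` for `k`. `S_KrM` for `(l, N) = (k + 1, k + 1)` and `(k, k + 1)`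
and `ψ` gives `e₁`, `e₂`; `S_DpM` for `D₀`, `B`, `ε / 4` gives `e₃`; `e₀` is the maximum. Let `D ∈ 𝒟` be in none of the three exceptional sets (together at most `(3 / 4) ε #𝒟`).
`D₁ = D₀ + D ∈ OS av'` (`TrD.os`). `#Ker₁ ^ 4 ≤ p ^ (k + 1) #Λ₁ ^ 4`, `#Ker₂ ^ 4 ≤ p ^ k #Λ₂ ^ 4`, `Λ₁ = Oq p (k + 1)`, `Λ₂ = Oq p k` of order `p ^ ((k + 1) (p - 1))`,
`p ^ (k (p - 1))` (`S_Lfo`, `IsLam.lr`), so `(p #Ker₁ #Ker₂) ^ 4 ≤ p ^ (2 k + 5) (#Λ₁ #Λ₂) ^ 4 < (p ^ k #Λ₁ #Λ₂) ^ 4` as `2 k + 5 < 4 k`. `OCr p W' ..` for `Q'`, `ψ ∘ θ`, `ι'`, `D₁`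
gives the claim. -/
def S_ThmM : Prop :=
  ∀ (p : ℕ) [Fact p.Prime] (K M : Type) [Field K] [Field M] [Algebra K M]
    [FiniteDimensional K M] [IsGalois K M] [CharP K p], GFld p K → ∀ r : ℕ,
    Module.finrank K M = p ^ r → ∀ W : WeierstrassCurve K, Gc p W → ∀ D₀ : M,
    ∃ (m : ℕ) (av₀ : Fin m → AbsoluteValue K ℝ), (∀ i, (av₀ i).IsNontrivial) ∧
      ∀ (n : ℕ) (av : Fin n → AbsoluteValue K ℝ), Pls av → (∀ i, ∃ j, (av j).IsEquiv (av₀ i)) →
        (∀ e, (FS av e : Set (OS av)).Finite) ∧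
        ∀ ε : ℝ, 0 < ε → ∃ e₀ : ℕ, ∀ 𝒟 : AddSubgroup (OS av), (𝒟 : Set (OS av)).Finite →
          FS av e₀ ≤ 𝒟 →
          ({D : OS av | D ∈ 𝒟 ∧ ¬ ((¬ ∃ x : M, x ^ p - x = D₀ + algebraMap K M (D : K)) ∧
            GdV (W.map (algebraMap K M)) (hD p (D₀ + algebraMap K M (D : K))))}.ncard : ℝ) ≤
              ε * Nat.card 𝒟

/-- **GdZ** (200 lines, uses `S_Has`, `S_Fdg`, `S_IdxE`, `S_IdxET`, `S_Eql`). The literal form of the properties.

Proof. As `finGood` in `P3/F/Fin.lean` (and `P3/U/Fin2.lean` for `p = 2`), followed by the translation of `MP72Q.Good` to `MP72Z.Good` as in `P3/U/UniT.lean`,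
`P3/U/ToZ.lean` (the definitions are the same up to the division into smaller ones). -/
def S_GdZ : Prop :=
  ∀ (p : ℕ) [Fact p.Prime] (K : Type) [Field K] [CharP K p] (W : WeierstrassCurve K), Gc p W →
    ∀ D : K, (¬ ∃ x : K, x ^ p - x = D) → GdV W (hD p D) → MP72Z.Good W p D

/-- **FinM** (250 lines, uses `S_Na`, `S_GcM`, `S_ThmM`, `S_GdZ`). The theorem for curves in normal form.

Proof. As `P3/F/Fin.lean`: `av₀`, `e₀` from `S_ThmM`, `B₀ = 2 ^ e₀`, `𝒟 = {D : OS av | ∀ j, av j D ≤ B j}`; `Tw av B` is the image of `𝒟`. For `D ∈ 𝒟` outside the exceptional set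
`MP72Z.Good (W.map (algebraMap K M)) p (D₀ + D)` by `S_GdZ` (`CharP M p`, `Gc` by `S_GcM`). -/
def S_FinM : Prop :=
  ∀ (p : ℕ) [Fact p.Prime] (K M : Type) [Field K] [Field M] [Algebra K M]
    [FiniteDimensional K M] [IsGalois K M] [CharP K p], GFld p K → ∀ r : ℕ,
    Module.finrank K M = p ^ r → ∀ W : WeierstrassCurve K, Gc p W → ∀ D₀ : M,
      MP72Z.ThmOver p W D₀

/-- **VchG** (250 lines). Changes of variables.

Proof. As `vchU_good` in `P3/U/VchU.lean` (which imports `W2/E/Cov.lean`; import it too) for the definitions of `MP72Z` (`IsCob`, `IdxFin` componentwise). -/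
def S_VchG : Prop :=
  ∀ (p : ℕ) [Fact p.Prime] (K : Type) [Field K] (E : WeierstrassCurve K) (C : VariableChange K)
    (D : K), MP72Z.Good (C • E) p D → MP72Z.Good E p D

/-- **UniM** (120 lines, uses `S_Sgf`, `S_Nfp`, `S_FinM`, `S_VchG`). THE FINAL STATEMENT.

Proof. See `P3/U/UniT.lean`. `GFld p K` by `S_Sgf` (`MP72U.IsGlobal` is `MP72Z.IsGlobal`), `CharP K p`. `C` by `S_Nfp`: `Gc p (C • E)`. `S_FinM` gives `MP72Z.ThmOver p (C • E) D₀`.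
`(C • E).map φ = (C.map φ) • (E.map φ)` (`WeierstrassCurve.map_variableChange`), so `S_VchG` for the field `M` gives `MP72Z.ThmOver p E D₀` (same `av₀`, `B₀`). -/
def S_UniM : Prop := MP72Z.T4

end Pool.Agent.MP72G
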